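import Mathlib
import Pool.Agent.H476R3.DiagCode3

set_option autoImplicit false

/-! The machine of `H476R3.DiagMach` without the starting rule: a fixed deterministic rewriting
system which simulates the counter machine `M`. -/

namespace Pool.Agent.H476R3.DiagMach.RD59

open Pool.Agent.Helper599.Core Pool.Agent.H476R3.Diag Relation

variable {Q : Type} (M : Sys Q Bool)

/-- the transition table -/
def dl : Sym Q M.B → Sym Q M.B → Option (List (Sym Q M.B))
  | .R q r, .one => if h : (r : ℕ) + 1 < M.B then some [.R q ⟨r + 1, h⟩] else some [.two, .R q (z0 M)]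
  | .R q r, .hsh => some [.L q r (z0 M), .hsh]
  | .L q r2 r1, .two => some [.L q r2 r1, .two]
  | .L q r2 r1, .one =>
      if h : (r1 : ℕ) + 1 < M.B then some [.L q r2 ⟨r1 + 1, h⟩] else some [.L q r2 (z0 M), .thr]
  | .L q r2 r1, .dol =>
      some (if (M.nxt q (rv M r1 r2)).isSome then [.dol, .S q r1 r2] else [.dol, .E])
  | .S q r1 r2, .thr => some (List.replicate (M.a q (rv M r1 r2) false) .one ++ [.S q r1 r2])
  | .S q r1 r2, .two =>
      some (List.replicate (M.b q (rv M r1 r2) false) .one ++ [.ifc, .T q r1 r2, .two])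
  | .S q r1 r2, .hsh =>
      some (List.replicate (M.b q (rv M r1 r2) false) .one ++ [.ifc, .T q r1 r2, .hsh])
  | .T q r1 r2, .two => some (List.replicate (M.a q (rv M r1 r2) true) .one ++ [.T q r1 r2])
  | .T q r1 r2, .hsh => (M.nxt q (rv M r1 r2)).map fun q' =>
      List.replicate (M.b q (rv M r1 r2) true) .one ++ [.U q', .hsh, .clk]
  | .U q, .one => some [.U q, .one]
  | .U q, .ifc => some [.R q (z0 M)]
  | .E, .thr => some [.E]
  | .E, .two => some [.E]
  | .E, .hsh => some [.E]
  | .E, .clk => some [.E]
  | .E, .pct => some [.F, .pct]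
  | .F, .dol => some [.X]
  | _, _ => none

theorem dl_X (y : Sym Q M.B) : dl M .X y = none := by
  cases y <;> rfl

theorem dl_eq (q0 : Q) (s y : Sym Q M.B) (hs : s ≠ .X) : dl M s y = δ M q0 0 s y := by
  cases s <;> cases y <;> first | rfl | exact absurd rfl hs

theorem dl_δ (q0 : Q) {s y : Sym Q M.B} {w : List (Sym Q M.B)} (h : dl M s y = some w) :
    s ≠ .X ∧ δ M q0 0 s y = some w := by
  by_cases hs : s = .X
  · subst hs
    rw [dl_X] at h
    cases h
  · exact ⟨hs, by rw [← dl_eq M q0 s y hs]; exact h⟩

/-- one rewriting step -/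
def Tz (u v : List (Sym Q M.B)) : Prop :=
  ∃ (a b : List (Sym Q M.B)) (s y : Sym Q M.B) (w : List (Sym Q M.B)),
    dl M s y = some w ∧ u = a ++ lhs s y ++ b ∧ v = a ++ w ++ b

/-- several rewriting steps -/
abbrev Rz (u v : List (Sym Q M.B)) : Prop := ReflTransGen (Tz M) u v

variable {M}


theorem Tz.right {s y : Sym Q M.B} {w : List (Sym Q M.B)} (h : dl M s y = some w)
    (hs : s.lft = false) (a b : List (Sym Q M.B)) : Tz M (a ++ s :: y :: b) (a ++ w ++ b) :=
  ⟨a, b, s, y, w, h, by simp [lhs, hs], rfl⟩

theorem Tz.left {s y : Sym Q M.B} {w : List (Sym Q M.B)} (h : dl M s y = some w)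
    (hs : s.lft = true) (a b : List (Sym Q M.B)) : Tz M (a ++ y :: s :: b) (a ++ w ++ b) :=
  ⟨a, b, s, y, w, h, by simp [lhs, hs], rfl⟩

attribute [irreducible] Tz

theorem Rz.right {s y : Sym Q M.B} {w : List (Sym Q M.B)} (h : dl M s y = some w)
    (hs : s.lft = false) (a b : List (Sym Q M.B)) : Rz M (a ++ s :: y :: b) (a ++ w ++ b) :=
  ReflTransGen.single (Tz.right h hs a b)

theorem Rz.left {s y : Sym Q M.B} {w : List (Sym Q M.B)} (h : dl M s y = some w)
    (hs : s.lft = true) (a b : List (Sym Q M.B)) : Rz M (a ++ y :: s :: b) (a ++ w ++ b) :=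
  ReflTransGen.single (Tz.left h hs a b)

/-- phase 1 -/
theorem ph1 (q : Q) (n : ℕ) : ∀ (r : Fin M.B) (a b : List (Sym Q M.B)),
    Rz M (a ++ .R q r :: (List.replicate n .one ++ b))
      (a ++ (List.replicate ((r + n) / M.B) .two ++ .R q (fm M (r + n)) :: b)) := by
  induction n with
  | zero =>
    intro r a b
    have : (r : ℕ) / M.B = 0 := Nat.div_eq_of_lt r.2
    simp only [List.replicate_zero, List.nil_append, Nat.add_zero, this, fm_self]
    exact ReflTransGen.refl
  | succ n ih =>
    intro r a b
    rw [List.replicate_succ, List.cons_append]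
    by_cases h : (r : ℕ) + 1 < M.B
    · have h1 := Rz.right (M := M) (s := .R q r) (y := .one)
        (w := [.R q ⟨r + 1, h⟩]) (by simp [dl, h]) rfl a (List.replicate n .one ++ b)
      refine h1.trans ?_
      have h2 := ih ⟨r + 1, h⟩ a b
      simp only [List.append_assoc, List.cons_append, List.nil_append] at h2 ⊢
      have e : (r : ℕ) + 1 + n = r + (n + 1) := by ring
      rw [e] at h2
      exact h2
    · have hr : (r : ℕ) + 1 = M.B := by have := r.2; omega
      have h1 := Rz.right (M := M) (s := .R q r) (y := .one)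
        (w := [.two, .R q (z0 M)]) (by simp [dl, h]) rfl a (List.replicate n .one ++ b)
      refine h1.trans ?_
      have h2 := ih (z0 M) (a ++ [.two]) b
      have e : (r : ℕ) + (n + 1) = n + M.B := by omega
      have e1 : (r + (n + 1) : ℕ) / M.B = n / M.B + 1 := by
        rw [e, Nat.add_div_right _ M.hB]
      have e2 : fm M (r + (n + 1)) = fm M n := by
        apply Fin.ext
        simp only [fm]
        rw [e, Nat.add_mod_right]
      rw [e1, e2]
      have e3 : ((z0 M : Fin M.B) : ℕ) + n = n := by simp [z0]
      rw [e3] at h2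
      simp only [List.append_assoc, List.cons_append, List.nil_append] at h2 ⊢
      rw [List.replicate_succ, List.cons_append]
      exact h2

/-- phase 2 -/
theorem ph2 (q : Q) (r2 r1 : Fin M.B) (n : ℕ) : ∀ (a b : List (Sym Q M.B)),
    Rz M (a ++ (List.replicate n .two ++ .L q r2 r1 :: b))
      (a ++ .L q r2 r1 :: (List.replicate n .two ++ b)) := by
  induction n with
  | zero => intro a b; exact ReflTransGen.refl
  | succ n ih =>
    intro a b
    have h1 := ih (a ++ [.two]) b
    have h2 := Rz.left (M := M) (s := .L q r2 r1) (y := .two)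
        (w := [.L q r2 r1, .two]) (by simp [dl]) rfl a (List.replicate n .two ++ b)
    rw [List.replicate_succ]
    simp only [List.append_assoc, List.cons_append, List.nil_append] at h1 h2 ⊢
    exact h1.trans h2

/-- phase 3 -/
theorem ph3 (q : Q) (r2 : Fin M.B) (n : ℕ) : ∀ (r1 : Fin M.B) (a b : List (Sym Q M.B)),
    Rz M (a ++ (List.replicate n .one ++ .L q r2 r1 :: b))
      (a ++ .L q r2 (fm M (r1 + n)) :: (List.replicate ((r1 + n) / M.B) .thr ++ b)) := by
  induction n with
  | zero =>
    intro r a b
    have : (r : ℕ) / M.B = 0 := Nat.div_eq_of_lt r.2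
    simp only [List.replicate_zero, List.nil_append, Nat.add_zero, this, fm_self]
    exact ReflTransGen.refl
  | succ n ih =>
    intro r a b
    have e0 : List.replicate (n + 1) (.one : Sym Q M.B) ++ .L q r2 r :: b =
        List.replicate n .one ++ .one :: .L q r2 r :: b := by
      rw [rep_comm]; rfl
    rw [e0]
    by_cases h : (r : ℕ) + 1 < M.B
    · have h1 := Rz.left (M := M) (s := .L q r2 r) (y := .one)
        (w := [.L q r2 ⟨r + 1, h⟩]) (by simp [dl, h]) rfl (a ++ List.replicate n .one) b
      have h2 := ih ⟨r + 1, h⟩ a b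
      simp only [List.append_assoc, List.cons_append, List.nil_append] at h1 h2 ⊢
      have e : (r : ℕ) + 1 + n = r + (n + 1) := by ring
      rw [e] at h2
      exact h1.trans h2
    · have hr : (r : ℕ) + 1 = M.B := by have := r.2; omega
      have h1 := Rz.left (M := M) (s := .L q r2 r) (y := .one)
        (w := [.L q r2 (z0 M), .thr]) (by simp [dl, h]) rfl (a ++ List.replicate n .one) b
      have h2 := ih (z0 M) a (.thr :: b)
      have e : (r : ℕ) + (n + 1) = n + M.B := by omega
      have e1 : (r + (n + 1) : ℕ) / M.B = n / M.B + 1 := by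
        rw [e, Nat.add_div_right _ M.hB]
      have e2 : fm M (r + (n + 1)) = fm M n := by
        apply Fin.ext
        simp only [fm]
        rw [e, Nat.add_mod_right]
      rw [e1, e2]
      have e3 : ((z0 M : Fin M.B) : ℕ) + n = n := by simp [z0]
      rw [e3, rep_comm] at h2
      rw [List.replicate_succ]
      simp only [List.append_assoc, List.cons_append, List.nil_append] at h1 h2 ⊢
      exact h1.trans h2

/-- phase 5 -/
theorem ph5 (q : Q) (r1 r2 : Fin M.B) (n : ℕ) : ∀ (a b : List (Sym Q M.B)),
    Rz M (a ++ .S q r1 r2 :: (List.replicate n .thr ++ b))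
      (a ++ (List.replicate (M.a q (rv M r1 r2) false * n) .one ++ .S q r1 r2 :: b)) := by
  induction n with
  | zero => intro a b; exact ReflTransGen.refl
  | succ n ih =>
    intro a b
    have h1 := Rz.right (M := M) (s := .S q r1 r2) (y := .thr)
      (w := List.replicate (M.a q (rv M r1 r2) false) .one ++ [.S q r1 r2]) (by simp [dl]) rfl a
      (List.replicate n .thr ++ b)
    have h2 := ih (a ++ List.replicate (M.a q (rv M r1 r2) false) .one) b
    rw [List.replicate_succ, Nat.mul_succ, Nat.add_comm, List.replicate_add]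
    simp only [List.append_assoc, List.cons_append, List.nil_append] at h1 h2 ⊢
    exact h1.trans h2

/-- phase 7 -/
theorem ph7 (q : Q) (r1 r2 : Fin M.B) (n : ℕ) : ∀ (a b : List (Sym Q M.B)),
    Rz M (a ++ .T q r1 r2 :: (List.replicate n .two ++ b))
      (a ++ (List.replicate (M.a q (rv M r1 r2) true * n) .one ++ .T q r1 r2 :: b)) := by
  induction n with
  | zero => intro a b; exact ReflTransGen.refl
  | succ n ih =>
    intro a b
    have h1 := Rz.right (M := M) (s := .T q r1 r2) (y := .two)
      (w := List.replicate (M.a q (rv M r1 r2) true) .one ++ [.T q r1 r2]) (by simp [dl]) rfl a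
      (List.replicate n .two ++ b)
    have h2 := ih (a ++ List.replicate (M.a q (rv M r1 r2) true) .one) b
    rw [List.replicate_succ, Nat.mul_succ, Nat.add_comm, List.replicate_add]
    simp only [List.append_assoc, List.cons_append, List.nil_append] at h1 h2 ⊢
    exact h1.trans h2

/-- phase 6 -/
theorem ph6 (q : Q) (r1 r2 : Fin M.B) (n : ℕ) (a b : List (Sym Q M.B)) :
    Rz M (a ++ .S q r1 r2 :: (List.replicate n .two ++ .hsh :: b))
      (a ++ (List.replicate (M.b q (rv M r1 r2) false) .one ++
        .ifc :: .T q r1 r2 :: (List.replicate n .two ++ .hsh :: b))) := by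
  cases n with
  | zero =>
    have h1 := Rz.right (M := M) (s := .S q r1 r2) (y := .hsh)
      (w := List.replicate (M.b q (rv M r1 r2) false) .one ++ [.ifc, .T q r1 r2, .hsh])
      (by simp [dl]) rfl a b
    simpa using h1
  | succ n =>
    have h1 := Rz.right (M := M) (s := .S q r1 r2) (y := .two)
      (w := List.replicate (M.b q (rv M r1 r2) false) .one ++ [.ifc, .T q r1 r2, .two])
      (by simp [dl]) rfl a (List.replicate n .two ++ .hsh :: b)
    rw [List.replicate_succ]
    simpa using h1

/-- phase 9 -/
theorem ph9 (q : Q) (n : ℕ) : ∀ (a b : List (Sym Q M.B)),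
    Rz M (a ++ (List.replicate n .one ++ .U q :: b))
      (a ++ .U q :: (List.replicate n .one ++ b)) := by
  induction n with
  | zero => intro a b; exact ReflTransGen.refl
  | succ n ih =>
    intro a b
    have h1 := ih (a ++ [.one]) b
    have h2 := Rz.left (M := M) (s := .U q) (y := .one)
        (w := [.U q, .one]) (by simp [dl]) rfl a (List.replicate n .one ++ b)
    rw [List.replicate_succ]
    simp only [List.append_assoc, List.cons_append, List.nil_append] at h1 h2 ⊢
    exact h1.trans h2

/-- erasing -/
theorem phE (y : Sym Q M.B) (hy : dl M .E y = some [.E]) (n : ℕ) (a b : List (Sym Q M.B)) :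
    Rz M (a ++ .E :: (List.replicate n y ++ b)) (a ++ .E :: b) := by
  induction n with
  | zero => exact ReflTransGen.refl
  | succ n ih =>
    have h1 := Rz.right (M := M) (s := .E) (y := y) hy rfl a
      (List.replicate n y ++ b)
    rw [List.replicate_succ]
    simp only [List.append_assoc, List.cons_append, List.nil_append] at h1 ⊢
    exact h1.trans ih

theorem half (q : Q) (n : Bool → ℕ) (t : ℕ) :
    Rz M (cfg M q n t) (.dol :: .L q (fm M (n true)) (fm M (n false)) ::
      (List.replicate (n false / M.B) .thr ++ (List.replicate (n true / M.B) .two ++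
        .hsh :: (List.replicate t .clk ++ [.pct])))) := by
  unfold cfg
  have h1 := ph1 (M := M) q (n true) (z0 M)
    (.dol :: List.replicate (n false) .one) (.hsh :: (List.replicate t .clk ++ [.pct]))
  have e3 : ∀ k : ℕ, ((z0 M : Fin M.B) : ℕ) + k = k := by intro k; simp [z0]
  rw [e3] at h1
  have h2 := Rz.right (M := M) (s := .R q (fm M (n true))) (y := .hsh)
    (w := [.L q (fm M (n true)) (z0 M), .hsh]) (by simp [dl]) rfl
    (.dol :: List.replicate (n false) .one ++ List.replicate (n true / M.B) .two)
    (List.replicate t .clk ++ [.pct])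
  have h3 := ph2 (M := M) q (fm M (n true)) (z0 M) (n true / M.B)
    (.dol :: List.replicate (n false) .one) (.hsh :: (List.replicate t .clk ++ [.pct]))
  have h4 := ph3 (M := M) q (fm M (n true)) (n false) (z0 M)
    [.dol] (List.replicate (n true / M.B) .two ++ .hsh :: (List.replicate t .clk ++ [.pct]))
  rw [e3] at h4
  simp only [List.append_assoc, List.cons_append, List.nil_append] at h1 h2 h3 h4 ⊢
  exact ((h1.trans h2).trans h3).trans h4

/-- simulation of one step of the machine -/
theorem macro_step (q q' : Q) (n : Bool → ℕ) (t : ℕ) (h : M.nxt q (M.res n) = some q') :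
    Rz M (cfg M q n t) (cfg M q' (M.nn q n) (t + 1)) := by
  refine (half q n t).trans ?_
  set r1 := fm M (n false) with hr1
  set r2 := fm M (n true) with hr2
  have hrv : rv M r1 r2 = M.res n := res_eq n
  have h4 := Rz.left (M := M) (s := .L q r2 r1) (y := .dol)
    (w := [.dol, .S q r1 r2]) (by simp [dl, hrv, h]) rfl []
    (List.replicate (n false / M.B) .thr ++ (List.replicate (n true / M.B) .two ++
        .hsh :: (List.replicate t .clk ++ [.pct])))
  have h5 := ph5 (M := M) q r1 r2 (n false / M.B) [.dol]
    (List.replicate (n true / M.B) .two ++ .hsh :: (List.replicate t .clk ++ [.pct]))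
  have h6 := ph6 (M := M) q r1 r2 (n true / M.B)
    (.dol :: List.replicate (M.a q (rv M r1 r2) false * (n false / M.B)) .one)
    (List.replicate t .clk ++ [.pct])
  have h7 := ph7 (M := M) q r1 r2 (n true / M.B)
    (.dol :: List.replicate (M.a q (rv M r1 r2) false * (n false / M.B)) .one ++
      (List.replicate (M.b q (rv M r1 r2) false) .one ++ [.ifc]))
    (.hsh :: (List.replicate t .clk ++ [.pct]))
  have h8 := Rz.right (M := M) (s := .T q r1 r2) (y := .hsh)
    (w := List.replicate (M.b q (rv M r1 r2) true) .one ++ [.U q', .hsh, .clk])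
    (by simp [dl, hrv, h]) rfl
    (.dol :: List.replicate (M.a q (rv M r1 r2) false * (n false / M.B)) .one ++
      (List.replicate (M.b q (rv M r1 r2) false) .one ++ .ifc ::
        List.replicate (M.a q (rv M r1 r2) true * (n true / M.B)) .one))
    (List.replicate t .clk ++ [.pct])
  have h9 := ph9 (M := M) q' (M.a q (rv M r1 r2) true * (n true / M.B) +
      M.b q (rv M r1 r2) true)
    (.dol :: List.replicate (M.a q (rv M r1 r2) false * (n false / M.B)) .one ++
      (List.replicate (M.b q (rv M r1 r2) false) .one ++ [.ifc]))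
    (.hsh :: .clk :: (List.replicate t .clk ++ [.pct]))
  have h10 := Rz.left (M := M) (s := .U q') (y := .ifc)
    (w := [.R q' (z0 M)]) (by simp [dl]) rfl
    (.dol :: List.replicate (M.a q (rv M r1 r2) false * (n false / M.B)) .one ++
      (List.replicate (M.b q (rv M r1 r2) false) .one))
    (List.replicate (M.a q (rv M r1 r2) true * (n true / M.B) +
      M.b q (rv M r1 r2) true) .one ++ .hsh :: .clk :: (List.replicate t .clk ++ [.pct]))
  have hend : cfg M q' (M.nn q n) (t + 1) = .dol ::
      (List.replicate (M.a q (rv M r1 r2) false * (n false / M.B)) .one ++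
      (List.replicate (M.b q (rv M r1 r2) false) .one ++ (.R q' (z0 M) ::
      (List.replicate (M.a q (rv M r1 r2) true * (n true / M.B)) .one ++
      (List.replicate (M.b q (rv M r1 r2) true) .one ++
        .hsh :: .clk :: (List.replicate t .clk ++ [.pct])))))) := by
    unfold cfg Sys.nn
    rw [hrv, List.replicate_add, List.replicate_add, List.replicate_succ]
    simp only [List.append_assoc, List.cons_append, List.nil_append]
  rw [hend]
  rw [List.replicate_add] at h9 h10
  simp only [List.append_assoc, List.cons_append, List.nil_append] at h4 h5 h6 h7 h8 h9 h10 ⊢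
  exact (((((h4.trans h5).trans h6).trans h7).trans h8).trans h9).trans h10

/-- simulation of the last step -/
theorem macro_stop (q : Q) (n : Bool → ℕ) (t : ℕ) (h : M.nxt q (M.res n) = none) :
    Rz M (cfg M q n t) [.X, .pct] := by
  refine (half q n t).trans ?_
  set r1 := fm M (n false) with hr1
  set r2 := fm M (n true) with hr2
  have hrv : rv M r1 r2 = M.res n := res_eq n
  have h4 := Rz.left (M := M) (s := .L q r2 r1) (y := .dol)
    (w := [.dol, .E]) (by simp [dl, hrv, h]) rfl []
    (List.replicate (n false / M.B) .thr ++ (List.replicate (n true / M.B) .two ++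
        .hsh :: (List.replicate t .clk ++ [.pct])))
  have h5 := phE (M := M) .thr (by simp [dl]) (n false / M.B) [.dol]
    (List.replicate (n true / M.B) .two ++ .hsh :: (List.replicate t .clk ++ [.pct]))
  have h6 := phE (M := M) .two (by simp [dl]) (n true / M.B) [.dol]
    (.hsh :: (List.replicate t .clk ++ [.pct]))
  have h7 := phE (M := M) .hsh (by simp [dl]) 1 [.dol]
    (List.replicate t .clk ++ [.pct])
  have h8 := phE (M := M) .clk (by simp [dl]) t [.dol] [.pct]
  have h9 := Rz.right (M := M) (s := .E) (y := .pct)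
    (w := [.F, .pct]) (by simp [dl]) rfl [.dol] []
  have h10 := Rz.left (M := M) (s := .F) (y := .dol)
    (w := [.X]) (by simp [dl]) rfl [] [.pct]
  simp only [List.append_assoc, List.cons_append, List.nil_append, List.replicate_one] at *
  exact (((((h4.trans h5).trans h6).trans h7).trans h8).trans h9).trans h10

theorem halts_reach {q : Option Q} {n : Bool → ℕ} (h : M.Halts q n) :
    ∀ q', q = some q' → ∀ t, Rz M (cfg M q' n t) [.X, .pct] := by
  induction h with
  | stop n => intro q' h; simp at h
  | step q n h' ih =>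
    intro q' hq t
    obtain rfl : q = q' := Option.some.inj hq
    cases hn : M.nxt q (M.res n) with
    | none => exact macro_stop q n t hn
    | some q' => exact (macro_step q q' n t hn).trans (ih q' hn (t + 1))

theorem not_halts_reach {q0 : Q} {n0 : Bool → ℕ} (h : ¬ M.Halts (some q0) n0) (t : ℕ) :
    ∃ (q : Q) (n : Bool → ℕ), ¬ M.Halts (some q) n ∧
      Rz M (cfg M q0 n0 0) (cfg M q n t) := by
  induction t with
  | zero => exact ⟨q0, n0, h, ReflTransGen.refl⟩
  | succ t ih =>
    obtain ⟨q, n, h1, h2⟩ := ih
    cases hn : M.nxt q (M.res n) with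
    | none =>
      exact absurd (Sys.Halts.step q n (by rw [hn]; exact Sys.Halts.stop _)) h1
    | some q' =>
      refine ⟨q', M.nn q n, ?_, h2.trans (macro_step q q' n t hn)⟩
      intro h3
      exact h1 (Sys.Halts.step q n (by rw [hn]; exact h3))

end Pool.Agent.H476R3.DiagMach.RD59
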