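import Mathlib
import Pool.Agent.H476R3.DiagDet

set_option autoImplicit false

/-! A presentation with a tree of machine words attached to the base word. -/

namespace Pool.Agent.Y59.RD

open Pool.Agent.H476R3.Diag

/-- the word `v` between the two markers -/
def kap (k : ℕ) (v : List ℕ) : List ℕ := k :: (v ++ [k + 1])

/-- the data -/
structure Data where
  /-- size of the alphabet -/
  k : ℕ
  /-- the relations of the group -/
  R1 : Set (List ℕ × List ℕ)
  /-- the base word -/
  w1 : List ℕ
  /-- the relations of the machine -/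
  RM : Set (List ℕ × List ℕ)
  /-- the final word of the machine -/
  br : List ℕ
  /-- machine words -/
  VM : List ℕ → Prop
  h1 : ∀ r ∈ R1, ∀ f, side r f ≠ [] ∧ ∀ n ∈ side r f, n < k
  hw1 : ∀ n ∈ w1, n < k
  hM : ∀ r ∈ RM, ∀ f, side r f ≠ [] ∧ ∀ n ∈ side r f, k + 2 ≤ n
  hbr : br ≠ [] ∧ ∀ n ∈ br, k + 2 ≤ n
  hVM : ∀ x, VM x → ∀ n ∈ x, k + 2 ≤ n
  det : ∀ e e' : Edge ℕ, e.r ∈ RM → e'.r ∈ RM → e.fwd = true → e'.fwd = true →
    VM e.src → e.src = e'.src → e = e'
  pres : ∀ e : Edge ℕ, e.r ∈ RM → VM e.src → VM e.tgt
  term : ∀ e : Edge ℕ, e.r ∈ RM → e.fwd = true → VM e.src → ∀ a b, e.src ≠ a ++ br ++ b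
  vbr : VM br

namespace Data

variable (D : Data)

/-- the bridge relation -/
def brE : List ℕ × List ℕ := (D.br, kap D.k D.w1)

/-- all relations -/
def R : Set (List ℕ × List ℕ) := {r | r ∈ D.R1 ∨ r ∈ D.RM ∨ r = D.brE}

/-- the bridge -/
def B : Edge ℕ := ⟨[], D.brE, [], true⟩

/-- good words -/
def Good (x : List ℕ) (p : List (Edge ℕ)) (v : List ℕ) : Prop :=
  (x = kap D.k v ∧ p = [] ∧ ∀ n ∈ v, n < D.k) ∨
    (D.VM x ∧ v = D.w1 ∧ ∃ A, FPath D.RM x A D.br ∧ p = A ++ [D.B])

open Classical in
/-- the projection of edges -/
noncomputable def eps (e : Edge ℕ) : List (Edge ℕ) :=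
  if e.r ∈ D.R1 then [⟨e.a.tail, e.r, e.b.dropLast, e.fwd⟩] else []

/-- the inclusion of edges -/
def phi (e : Edge ℕ) : Edge ℕ := ⟨D.k :: e.a, e.r, e.b ++ [D.k + 1], e.fwd⟩

/-- the projection of paths -/
noncomputable def Psi (L : List (Edge ℕ)) : List (Edge ℕ) := L.flatMap D.eps

/-- the inclusion of paths -/
def Phi (L : List (Edge ℕ)) : List (Edge ℕ) := L.map D.phi

variable {D}

theorem kap_split {k : ℕ} {a s b v : List ℕ} (hs : s ≠ []) (hl : ∀ n ∈ s, n < k)
    (h : a ++ s ++ b = kap k v) :
    ∃ v1 v2, a = k :: v1 ∧ b = v2 ++ [k + 1] ∧ v = v1 ++ s ++ v2 := by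
  unfold kap at h
  cases a with
  | nil =>
    cases s with
    | nil => exact absurd rfl hs
    | cons x t =>
      simp only [List.nil_append, List.cons_append, List.cons.injEq] at h
      have := hl x (by simp)
      omega
  | cons x v1 =>
    simp only [List.cons_append, List.cons.injEq] at h
    obtain ⟨rfl, h⟩ := h
    rcases List.eq_nil_or_concat b with rfl | ⟨v2, z, rfl⟩
    · rcases List.eq_nil_or_concat s with rfl | ⟨t, z, rfl⟩
      · exact absurd rfl hs
      · rw [List.append_nil, List.concat_eq_append, ← List.append_assoc] at h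
        have h2 := (List.append_inj' h rfl).2
        simp only [List.cons.injEq, and_true] at h2
        have := hl z (by simp)
        omega
    · rw [List.concat_eq_append, ← List.append_assoc] at h
      have h1 := (List.append_inj' h rfl).1
      have h2 := (List.append_inj' h rfl).2
      simp only [List.cons.injEq, and_true] at h2
      exact ⟨v1, v2, rfl, by rw [List.concat_eq_append, h2], h1.symm⟩

theorem kap_high {k : ℕ} {a s b v : List ℕ} (hs : s ≠ []) (hl : ∀ n ∈ s, k + 2 ≤ n)
    (hv : ∀ n ∈ v, n < k) (h : a ++ s ++ b = kap k v) : False := by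
  obtain ⟨n, hn⟩ := List.exists_mem_of_ne_nil s hs
  have h1 : n ∈ kap k v := by rw [← h]; simp [hn]
  have h2 := hl n hn
  unfold kap at h1
  simp only [List.mem_cons, List.mem_append, List.not_mem_nil, or_false] at h1
  rcases h1 with h1 | h1 | h1
  · omega
  · have := hv n h1; omega
  · omega

theorem kap_kap {k : ℕ} {a b w v : List ℕ} (hv : ∀ n ∈ v, n < k)
    (h : a ++ kap k w ++ b = kap k v) : a = [] ∧ b = [] ∧ v = w := by
  unfold kap at h
  cases a with
  | nil =>
    simp only [List.nil_append, List.cons_append, List.cons.injEq, true_and] at h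
    rcases List.eq_nil_or_concat b with rfl | ⟨b', z, rfl⟩
    · rw [List.append_nil] at h
      exact ⟨rfl, rfl, (List.append_inj' h rfl).1.symm⟩
    · exfalso
      rw [List.concat_eq_append, ← List.append_assoc] at h
      have h1 := (List.append_inj' h rfl).1
      have := hv (k + 1) (by rw [← h1]; simp)
      omega
  | cons x a' =>
    exfalso
    simp only [List.cons_append, List.cons.injEq] at h
    have h := h.2
    rcases List.eq_nil_or_concat b with rfl | ⟨b', z, rfl⟩
    · rw [List.append_nil, ← List.cons_append, ← List.append_assoc] at h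
      have h1 := (List.append_inj' h rfl).1
      have := hv k (by rw [← h1]; simp)
      omega
    · rw [List.concat_eq_append, ← List.append_assoc] at h
      have h1 := (List.append_inj' h rfl).1
      have := hv k (by rw [← h1]; simp)
      omega

theorem kap_inj {k : ℕ} {v w : List ℕ} (h : kap k v = kap k w) : v = w := by
  unfold kap at h
  simp only [List.cons.injEq, true_and] at h
  exact (List.append_inj' h rfl).1

theorem not_R1 (r : List ℕ × List ℕ) (hr : r ∈ D.RM ∨ r = D.brE) : r ∉ D.R1 := by
  intro h
  obtain ⟨h1, h2⟩ := D.h1 r h true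
  obtain ⟨n, hn⟩ := List.exists_mem_of_ne_nil _ h1
  have h3 := h2 n hn
  rcases hr with hr | rfl
  · have := (D.hM r hr true).2 n hn; omega
  · have := D.hbr.2 n hn; omega

theorem Good.path {x : List ℕ} {p : List (Edge ℕ)} {v : List ℕ} (h : D.Good x p v) :
    IsPath D.R x p (kap D.k v) := by
  rcases h with ⟨rfl, rfl, -⟩ | ⟨h1, rfl, A, hA, rfl⟩
  · rfl
  · refine IsPath.append (v := D.br) ?_ ⟨Or.inr (Or.inr rfl), ?_, ?_⟩
    · have : ∀ (L : List (Edge ℕ)) (x y : List ℕ), IsPath D.RM x L y → IsPath D.R x L y := by
        intro L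
        induction L with
        | nil => intro x y h; exact h
        | cons e L ih => intro x y h; exact ⟨Or.inr (Or.inl h.1), h.2.1, ih _ _ h.2.2⟩
      exact this _ _ _ hA.1
    · simp [B, Edge.src, side, brE]
    · simp [B, Edge.tgt, side, brE]

theorem mem_src {e : Edge ℕ} {n : ℕ} (h : n ∈ side e.r e.fwd) : n ∈ e.src := by
  simp [Edge.src, h]

/-- one edge -/
theorem step {e : Edge ℕ} (he : e.r ∈ D.R) {p : List (Edge ℕ)} {v : List ℕ}
    (hg : D.Good e.src p v) :
    ∃ p' v', D.Good e.tgt p' v' ∧ IsPath D.R1 v (D.eps e) v' ∧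
      Htpy D.R e.src e.tgt [e] (p ++ D.Phi (D.eps e) ++ pinv p') := by
  have hpe : IsPath D.R e.src [e] e.tgt := ⟨he, rfl, rfl⟩
  rcases he with he | he
  · -- a relation of the group
    rcases hg with ⟨hx, rfl, hv⟩ | ⟨h1, -⟩
    · obtain ⟨h2, h3⟩ := D.h1 e.r he e.fwd
      obtain ⟨v1, v2, ha, hb, hv'⟩ := kap_split h2 h3 hx
      have he2 : D.eps e = [⟨v1, e.r, v2, e.fwd⟩] := by
        simp [eps, he, ha, hb]
      refine ⟨[], v1 ++ side e.r (!e.fwd) ++ v2, Or.inl ⟨?_, rfl, ?_⟩, ?_, ?_⟩
      · simp [Edge.tgt, ha, hb, kap]
      · intro n hn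
        rw [List.mem_append, List.mem_append] at hn
        rcases hn with (hn | hn) | hn
        · exact hv n (by rw [hv']; simp [hn])
        · exact (D.h1 e.r he (!e.fwd)).2 n hn
        · exact hv n (by rw [hv']; simp [hn])
      · rw [he2]
        exact ⟨he, by rw [hv']; rfl, rfl⟩
      · rw [he2]
        have : D.Phi [⟨v1, e.r, v2, e.fwd⟩] = [e] := by
          simp only [Phi, List.map_cons, List.map_nil, phi, ← ha, ← hb]
        rw [this]
        simpa using Htpy.refl _ hpe
    · exfalso
      obtain ⟨h2, h3⟩ := D.h1 e.r he e.fwd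
      obtain ⟨n, hn⟩ := List.exists_mem_of_ne_nil _ h2
      have := D.hVM _ h1 n (mem_src hn)
      have := h3 n hn
      omega
  · have hn1 : e.r ∉ D.R1 := not_R1 e.r he
    have he2 : D.eps e = [] := by simp [eps, hn1]
    rw [he2]
    have hPhi : D.Phi [] = [] := rfl
    rw [hPhi, List.append_nil]
    rcases he with he | he
    · -- a relation of the machine
      rcases hg with ⟨hx, rfl, hv⟩ | ⟨h1, rfl, A, hA, rfl⟩
      · exact absurd hx (fun hx => kap_high (D.hM e.r he e.fwd).1 (D.hM e.r he e.fwd).2 hv hx)
      · have ht : D.VM e.tgt := D.pres e he h1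
        cases hf : e.fwd with
        | true =>
          cases A with
          | nil =>
            exfalso
            have h2 : e.src = D.br := hA.1
            exact D.term e he hf h1 [] [] (by simpa using h2)
          | cons e' A =>
            obtain ⟨⟨q1, q2, q3⟩, q4⟩ := hA
            have : e = e' := D.det e e' he q1 hf (q4 e' List.mem_cons_self) h1 q2.symm
            subst this
            have hA' : FPath D.RM e.tgt A D.br := ⟨q3, fun x hx => q4 x (List.mem_cons_of_mem _ hx)⟩
            have hg' : D.Good e.tgt (A ++ [D.B]) D.w1 := Or.inr ⟨ht, rfl, A, hA', rfl⟩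
            refine ⟨A ++ [D.B], D.w1, hg', rfl, ?_⟩
            have h3 := htpy_mul_pinv hg'.path
            have h4 := (Htpy.symm _ _ h3).append_left hpe
            simpa using h4
        | false =>
          have hA' : FPath D.RM e.tgt (e.inv :: A) D.br := by
            refine ⟨⟨he, rfl, ?_⟩, ?_⟩
            · rw [Edge.tgt_inv]; exact hA.1
            · intro x hx
              rcases List.mem_cons.1 hx with rfl | hx
              · simp [Edge.inv, hf]
              · exact hA.2 x hx
          have hg0 : D.Good e.src (A ++ [D.B]) D.w1 := Or.inr ⟨h1, rfl, A, hA, rfl⟩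
          have hg' : D.Good e.tgt (e.inv :: A ++ [D.B]) D.w1 :=
            Or.inr ⟨ht, rfl, e.inv :: A, hA', rfl⟩
          refine ⟨e.inv :: A ++ [D.B], D.w1, hg', rfl, ?_⟩
          have h3 := htpy_mul_pinv hg0.path
          have h4 := (Htpy.symm _ _ h3).append_right hpe
          have e1 : A ++ [D.B] ++ pinv (e.inv :: A ++ [D.B]) =
              A ++ [D.B] ++ pinv (A ++ [D.B]) ++ [e] := by
            rw [List.cons_append, pinv_cons, Edge.inv_inv, List.append_assoc (A ++ [D.B])]
          rw [e1]
          simpa using h4
    · -- the bridge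
      have hBi : IsPath D.R (kap D.k D.w1) (pinv [D.B]) D.br := by
        have : D.Good D.br ([] ++ [D.B]) D.w1 := Or.inr ⟨D.vbr, rfl, [], FPath.nil _, rfl⟩
        exact this.path.pinv
      rcases hg with ⟨hx, rfl, hv⟩ | ⟨h1, rfl, A, hA, rfl⟩
      · cases hf : e.fwd with
        | true =>
          exfalso
          have hx' := hx
          simp only [Edge.src, hf, he, side, brE, if_true] at hx'
          exact kap_high D.hbr.1 D.hbr.2 hv hx'
        | false =>
          have hx' := hx
          simp only [Edge.src, hf, he, side, brE, Bool.false_eq_true, if_false] at hx'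
          obtain ⟨ha, hb, hw⟩ := kap_kap hv hx'
          subst hw
          have hee : e = D.B.inv := by
            rcases e with ⟨a, r, b, f⟩
            simp only at ha hb hf he
            subst ha; subst hb; subst hf; subst he
            rfl
          subst hee
          have ht : D.B.inv.tgt = D.br := by simp [B, Edge.src, side, brE]
          refine ⟨[D.B], D.w1, ?_, rfl, ?_⟩
          · rw [ht]
            exact Or.inr ⟨D.vbr, rfl, [], FPath.nil _, rfl⟩
          · simpa using Htpy.refl _ hpe
      · cases hf : e.fwd with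
        | true =>
          have hs : e.src = e.a ++ D.br ++ e.b := by
            simp only [Edge.src, hf, he, side, brE, if_true]
          cases A with
          | nil =>
            have h2 : e.src = D.br := hA.1
            rw [hs] at h2
            have h3 := congrArg List.length h2
            simp only [List.length_append] at h3
            have ha : e.a = [] := List.length_eq_zero_iff.1 (by omega)
            have hb : e.b = [] := List.length_eq_zero_iff.1 (by omega)
            have hee : e = D.B := by
              rcases e with ⟨a, r, b, f⟩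
              simp only at ha hb hf he
              subst ha; subst hb; subst hf; subst he
              rfl
            subst hee
            have ht : D.B.tgt = kap D.k D.w1 := by simp [B, Edge.tgt, side, brE]
            refine ⟨[], D.w1, ?_, rfl, ?_⟩
            · rw [ht]
              exact Or.inl ⟨rfl, rfl, D.hw1⟩
            · simpa using Htpy.refl _ hpe
          | cons e' A =>
            exfalso
            obtain ⟨⟨q1, q2, q3⟩, q4⟩ := hA
            exact D.term e' q1 (q4 e' List.mem_cons_self) (by rw [q2]; exact h1) e.a e.b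
              (by rw [q2, hs])
        | false =>
          exfalso
          have hk : D.k ∈ e.src := by
            simp [Edge.src, hf, he, side, brE, kap]
          have := D.hVM _ h1 _ hk
          omega

end Data

end Pool.Agent.Y59.RD
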