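import Mathlib
import Pool.Agent.Y59.RD.Ret

set_option autoImplicit false

/-! The diagram group of the base word of the machine. -/

namespace Pool.Agent.Y59.RD

open Pool.Agent.H476R3.Diag

namespace Data

variable {D : Data}

theorem eps_path {e : Edge ℕ} {L : List (Edge ℕ)} : D.Psi (e :: L) = D.eps e ++ D.Psi L := by
  simp [Psi]

theorem Psi_append (L L' : List (Edge ℕ)) : D.Psi (L ++ L') = D.Psi L ++ D.Psi L' := by
  simp [Psi]

theorem Phi_append (L L' : List (Edge ℕ)) : D.Phi (L ++ L') = D.Phi L ++ D.Phi L' := by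
  simp [Phi]

theorem Phi_path {u v : List ℕ} {L : List (Edge ℕ)} (h : IsPath D.R1 u L v) :
    IsPath D.R (kap D.k u) (D.Phi L) (kap D.k v) := by
  induction L generalizing u with
  | nil =>
    have : u = v := h
    subst this
    rfl
  | cons e L ih =>
    obtain ⟨h1, h2, h3⟩ := h
    refine ⟨Or.inl h1, ?_, ?_⟩
    · rw [← h2]; simp [phi, Edge.src, kap]
    · have e1 : (D.phi e).tgt = kap D.k e.tgt := by simp [phi, Edge.tgt, kap]
      rw [e1]
      exact ih h3

/-- all paths from good words -/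
theorem claim (L : List (Edge ℕ)) : ∀ (x y : List ℕ) (p : List (Edge ℕ)) (v : List ℕ),
    IsPath D.R x L y → D.Good x p v → ∃ p' v', D.Good y p' v' ∧ IsPath D.R1 v (D.Psi L) v' ∧
      Htpy D.R x y L (p ++ D.Phi (D.Psi L) ++ pinv p') := by
  induction L with
  | nil =>
    intro x y p v h hg
    have : x = y := h
    subst this
    refine ⟨p, v, hg, rfl, ?_⟩
    have := Htpy.symm _ _ (htpy_mul_pinv hg.path)
    simpa [Psi, Phi] using this
  | cons e L ih =>
    intro x y p v h hg
    obtain ⟨h1, rfl, h3⟩ := h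
    obtain ⟨p1, v1, g1, q1, t1⟩ := step h1 hg
    obtain ⟨p2, v2, g2, q2, t2⟩ := ih _ _ _ _ h3 g1
    refine ⟨p2, v2, g2, ?_, ?_⟩
    · rw [eps_path]
      exact q1.append q2
    · have t3 := t1.append t2
      refine Htpy.trans _ _ _ t3 ?_
      rw [eps_path, Phi_append]
      have e1 : p ++ D.Phi (D.eps e) ++ pinv p1 ++ (p1 ++ D.Phi (D.Psi L) ++ pinv p2) =
          (p ++ D.Phi (D.eps e)) ++ ((pinv p1 ++ p1) ++ (D.Phi (D.Psi L) ++ pinv p2)) := by
        simp only [List.append_assoc]
      have e2 : p ++ (D.Phi (D.eps e) ++ D.Phi (D.Psi L)) ++ pinv p2 =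
          (p ++ D.Phi (D.eps e)) ++ ([] ++ (D.Phi (D.Psi L) ++ pinv p2)) := by
        simp only [List.append_assoc, List.nil_append]
      rw [e1, e2]
      refine Htpy.append_left (u := kap D.k v1) ?_ ?_
      · exact Htpy.append_right (htpy_pinv_mul g1.path) ((Phi_path q2).append g2.path.pinv)
      · exact hg.path.append (Phi_path q1)

theorem VM_kap {v : List ℕ} (h : D.VM (kap D.k v)) : False := by
  have := D.hVM _ h D.k (by simp [kap])
  omega

theorem good_kap {p : List (Edge ℕ)} {v v' : List ℕ} (h : D.Good (kap D.k v) p v') :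
    p = [] ∧ v' = v := by
  rcases h with ⟨h1, h2, -⟩ | ⟨h1, -⟩
  · exact ⟨h2, (kap_inj h1).symm⟩
  · exact (VM_kap h1).elim

theorem good_unique {x : List ℕ} {p p' : List (Edge ℕ)} {v v' : List ℕ} (h : D.Good x p v)
    (h' : D.Good x p' v') : v = v' := by
  rcases h with ⟨rfl, -, -⟩ | ⟨h1, rfl, -⟩
  · exact (good_kap h').2.symm
  · rcases h' with ⟨rfl, -, -⟩ | ⟨-, rfl, -⟩
    · exact (VM_kap h1).elim
    · rfl

theorem Psi_path {x y : List ℕ} {p p' : List (Edge ℕ)} {v v' : List ℕ} {L : List (Edge ℕ)}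
    (h : IsPath D.R x L y) (hg : D.Good x p v) (hg' : D.Good y p' v') :
    IsPath D.R1 v (D.Psi L) v' := by
  obtain ⟨p2, v2, g2, q2, -⟩ := claim L _ _ _ _ h hg
  rw [good_unique hg' g2]
  exact q2

/-- an edge of the group from a good word -/
theorem good_R1 {a b : List ℕ} {r : List ℕ × List ℕ} {f : Bool} (hr : r ∈ D.R1)
    {p : List (Edge ℕ)} {v : List ℕ} (hg : D.Good (a ++ side r f ++ b) p v) :
    ∃ v1 v2, a = D.k :: v1 ∧ b = v2 ++ [D.k + 1] ∧ v = v1 ++ side r f ++ v2 ∧
      (∀ n ∈ v, n < D.k) := by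
  obtain ⟨h2, h3⟩ := D.h1 r hr f
  rcases hg with ⟨hx, rfl, hv⟩ | ⟨h1, -⟩
  · obtain ⟨v1, v2, ha, hb, hv'⟩ := kap_split h2 h3 hx
    exact ⟨v1, v2, ha, hb, hv', hv⟩
  · exfalso
    obtain ⟨n, hn⟩ := List.exists_mem_of_ne_nil _ h2
    have := D.hVM _ h1 n (by simp [hn])
    have := h3 n hn
    omega

/-- other relations in the same word -/
theorem good_other {a b : List ℕ} {s : List ℕ × List ℕ} {f : Bool} (hs : s ∈ D.R)
    (hs1 : s ∉ D.R1) {v : List ℕ} (hv : ∀ n ∈ v, n < D.k)
    (hx : a ++ side s f ++ b = kap D.k v) : a = [] ∧ b = [] := by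
  rcases hs with hs | hs | rfl
  · exact absurd hs hs1
  · exact (kap_high (D.hM s hs f).1 (D.hM s hs f).2 hv hx).elim
  · cases f with
    | true =>
      simp only [side, brE, if_true] at hx
      exact (kap_high D.hbr.1 D.hbr.2 hv hx).elim
    | false =>
      simp only [side, brE, Bool.false_eq_true, if_false] at hx
      obtain ⟨ha, hb, -⟩ := kap_kap hv hx
      exact ⟨ha, hb⟩

theorem Psi_elem {x y : List ℕ} {p p' : List (Edge ℕ)} {v v' : List ℕ} {L L' : List (Edge ℕ)}
    (h : IsPath D.R x L y) (h' : IsPath D.R x L' y) (hg : D.Good x p v) (hg' : D.Good y p' v')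
    (he : Elem L L') : Htpy D.R1 v v' (D.Psi L) (D.Psi L') := by
  have hp := Psi_path h hg hg'
  have hp' := Psi_path h' hg hg'
  have hrefl : D.Psi L = D.Psi L' → Htpy D.R1 v v' (D.Psi L) (D.Psi L') := by
    intro e
    rw [← e]
    exact Htpy.refl _ hp
  cases he with
  | cancel L₁ e L₂ =>
    by_cases hr : e.r ∈ D.R1
    · refine Htpy.elem _ _ hp hp' ?_
      have e1 : D.Psi (L₁ ++ e :: e.inv :: L₂) = D.Psi L₁ ++
          (⟨e.a.tail, e.r, e.b.dropLast, e.fwd⟩ : Edge ℕ) ::
            (⟨e.a.tail, e.r, e.b.dropLast, e.fwd⟩ : Edge ℕ).inv :: D.Psi L₂ := by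
        rw [Psi_append, eps_path, eps_path]
        simp [eps, hr, Edge.inv]
      rw [e1, Psi_append]
      exact Elem.cancel _ _ _
    · apply hrefl
      rw [Psi_append, eps_path, eps_path, Psi_append]
      simp [eps, hr]
  | square L₁ a r b s c f g L₂ =>
    obtain ⟨x1, m1, m2⟩ := isPath_append.1 h
    obtain ⟨n1, n2, n3⟩ := m2
    obtain ⟨n4, n5, n6⟩ := n3
    have n1 : r ∈ D.R := n1
    have n4 : s ∈ D.R := n4
    obtain ⟨p1, v1, g1, -, -⟩ := claim L₁ _ _ _ _ m1 hg
    have hx1 : x1 = a ++ side r f ++ (b ++ side s g ++ c) := n2.symm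
    have hx2 : x1 = (a ++ side r f ++ b) ++ side s g ++ c := by
      rw [hx1]; simp only [List.append_assoc]
    by_cases hr : r ∈ D.R1
    · obtain ⟨u1, u2, ha, hb, hv, hlow⟩ := good_R1 hr (by rw [← hx1]; exact g1)
      have hk : x1 = kap D.k v1 := by
        rw [hx1, hb, ha, hv]; simp [kap]
      by_cases hs : s ∈ D.R1
      · obtain ⟨u1', u2', ha', hb', hv', -⟩ := good_R1 hs (by rw [← hx2]; exact g1)
        refine Htpy.elem _ _ hp hp' ?_
        have e1 : D.Psi (L₁ ++ (⟨a, r, b ++ side s g ++ c, f⟩ : Edge ℕ) ::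
            ⟨a ++ side r (!f) ++ b, s, c, g⟩ :: L₂) = D.Psi L₁ ++
            (⟨u1, r, b ++ side s g ++ u2', f⟩ : Edge ℕ) ::
              ⟨u1 ++ side r (!f) ++ b, s, u2', g⟩ :: D.Psi L₂ := by
          rw [Psi_append, eps_path, eps_path]
          have t1 : (b ++ side s g ++ c).dropLast = b ++ side s g ++ u2' := by
            rw [hb', ← List.append_assoc, List.dropLast_concat]
          have t2 : c.dropLast = u2' := by rw [hb', List.dropLast_concat]
          simp only [eps, hr, hs, if_true, t1, t2, ha, List.tail_cons, List.cons_append,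
            List.nil_append]
        have e2 : D.Psi (L₁ ++ (⟨a ++ side r f ++ b, s, c, g⟩ : Edge ℕ) ::
            ⟨a, r, b ++ side s (!g) ++ c, f⟩ :: L₂) = D.Psi L₁ ++
            (⟨u1 ++ side r f ++ b, s, u2', g⟩ : Edge ℕ) ::
              ⟨u1, r, b ++ side s (!g) ++ u2', f⟩ :: D.Psi L₂ := by
          rw [Psi_append, eps_path, eps_path]
          have t1 : (b ++ side s (!g) ++ c).dropLast = b ++ side s (!g) ++ u2' := by
            rw [hb', ← List.append_assoc, List.dropLast_concat]
          have t2 : c.dropLast = u2' := by rw [hb', List.dropLast_concat]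
          simp only [eps, hr, hs, if_true, t1, t2, ha, List.tail_cons, List.cons_append,
            List.nil_append]
        rw [e1, e2]
        exact Elem.square _ _ _ _ _ _ _ _ _
      · exfalso
        have := good_other n4 hs hlow (by rw [← hx2]; exact hk)
        have h3 := congrArg List.length this.1
        simp only [List.length_append, List.length_nil] at h3
        exact (D.h1 r hr f).1 (List.length_eq_zero_iff.1 (by omega))
    · by_cases hs : s ∈ D.R1
      · exfalso
        obtain ⟨u1, u2, ha, hb, hv, hlow⟩ := good_R1 hs (by rw [← hx2]; exact g1)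
        have hk : x1 = kap D.k v1 := by
          rw [hx2, hb, ha, hv]; simp [kap]
        have := good_other n1 hr hlow (by rw [← hx1]; exact hk)
        have h3 := congrArg List.length this.2
        simp only [List.length_append, List.length_nil] at h3
        exact (D.h1 s hs g).1 (List.length_eq_zero_iff.1 (by omega))
      · apply hrefl
        rw [Psi_append, eps_path, eps_path, Psi_append, eps_path, eps_path]
        simp [eps, hr, hs]

theorem Psi_htpy {x y : List ℕ} {p p' : List (Edge ℕ)} {v v' : List ℕ} {L L' : List (Edge ℕ)}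
    (hg : D.Good x p v) (hg' : D.Good y p' v')
    (h : Htpy D.R x y L L') : Htpy D.R1 v v' (D.Psi L) (D.Psi L') := by
  induction h with
  | refl L h => exact Htpy.refl _ (Psi_path h hg hg')
  | elem L L' h h' e => exact Psi_elem h h' hg hg' e
  | symm L L' _ ih => exact Htpy.symm _ _ ih
  | trans L L' L'' _ _ ih ih' => exact Htpy.trans _ _ _ ih ih'

theorem Phi_elem {L L' : List (Edge ℕ)} (h : Elem L L') : Elem (D.Phi L) (D.Phi L') := by
  cases h with
  | cancel L₁ e L₂ =>
    rw [Phi_append, Phi_append]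
    exact Elem.cancel (D.Phi L₁) (D.phi e) (D.Phi L₂)
  | square L₁ a r b s c f g L₂ =>
    rw [Phi_append, Phi_append]
    have := Elem.square (D.Phi L₁) (D.k :: a) r b s (c ++ [D.k + 1]) f g (D.Phi L₂)
    simp only [Phi, phi, List.map_cons, List.append_assoc, List.cons_append] at this ⊢
    exact this

theorem Phi_htpy {u v : List ℕ} {L L' : List (Edge ℕ)} (h : Htpy D.R1 u v L L') :
    Htpy D.R (kap D.k u) (kap D.k v) (D.Phi L) (D.Phi L') := by
  induction h with
  | refl L h => exact Htpy.refl _ (Phi_path h)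
  | elem L L' h h' e => exact Htpy.elem _ _ (Phi_path h) (Phi_path h') (Phi_elem e)
  | symm L L' _ ih => exact Htpy.symm _ _ ih
  | trans L L' L'' _ _ ih ih' => exact Htpy.trans _ _ _ ih ih'

theorem Psi_Phi {u v : List ℕ} {L : List (Edge ℕ)} (h : IsPath D.R1 u L v) :
    D.Psi (D.Phi L) = L := by
  induction L generalizing u with
  | nil => rfl
  | cons e L ih =>
    have e1 : D.Phi (e :: L) = D.phi e :: D.Phi L := rfl
    rw [e1, eps_path, ih h.2.2]
    have : D.eps (D.phi e) = [e] := by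
      simp [eps, phi, h.1]
    rw [this]
    rfl

/-- the homomorphism -/
def inc : DiagramGroup D.R1 D.w1 →* DiagramGroup D.R (kap D.k D.w1) where
  toFun := Quotient.map (fun L : Loop D.R1 D.w1 => ⟨D.Phi L.1, Phi_path L.2⟩)
    (fun _ _ h => Phi_htpy h)
  map_one' := rfl
  map_mul' := by
    intro x y
    obtain ⟨L, rfl⟩ := DiagramGroup.exists_rep x
    obtain ⟨L', rfl⟩ := DiagramGroup.exists_rep y
    change DiagramGroup.mk ⟨D.Phi (L.1 ++ L'.1), _⟩ = DiagramGroup.mk ⟨D.Phi L.1 ++ D.Phi L'.1, _⟩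
    congr 2
    exact Phi_append _ _

theorem inc_bij : Function.Bijective (inc (D := D)) := by
  have hg : D.Good (kap D.k D.w1) [] D.w1 := Or.inl ⟨rfl, rfl, D.hw1⟩
  constructor
  · intro x y hxy
    obtain ⟨L, rfl⟩ := DiagramGroup.exists_rep x
    obtain ⟨L', rfl⟩ := DiagramGroup.exists_rep y
    have h1 : Htpy D.R (kap D.k D.w1) (kap D.k D.w1) (D.Phi L.1) (D.Phi L'.1) :=
      DiagramGroup.mk_eq.1 hxy
    have h2 := Psi_htpy hg hg h1
    rw [Psi_Phi L.2, Psi_Phi L'.2] at h2
    exact DiagramGroup.mk_eq.2 h2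
  · intro x
    obtain ⟨L, rfl⟩ := DiagramGroup.exists_rep x
    obtain ⟨p', v', g1, q1, t1⟩ := claim L.1 _ _ _ _ L.2 hg
    obtain ⟨rfl, rfl⟩ := good_kap g1
    refine ⟨DiagramGroup.mk ⟨D.Psi L.1, q1⟩, ?_⟩
    refine DiagramGroup.mk_eq.2 ?_
    simpa using Htpy.symm _ _ t1

end Data

section base

variable {α : Type} {R : Set (List α × List α)} {x y : List α} {q : List (Edge α)}

/-- change of the base point -/
def conj (hq : IsPath R x q y) : DiagramGroup R y →* DiagramGroup R x where
  toFun := Quotient.map (fun L : Loop R y => ⟨q ++ L.1 ++ pinv q, (hq.append L.2).append hq.pinv⟩)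
    (fun _ _ h => Htpy.append_right (Htpy.append_left h hq) hq.pinv)
  map_one' := by
    refine DiagramGroup.mk_eq.2 ?_
    simpa using htpy_mul_pinv hq
  map_mul' := by
    intro a b
    obtain ⟨L, rfl⟩ := DiagramGroup.exists_rep a
    obtain ⟨L', rfl⟩ := DiagramGroup.exists_rep b
    refine DiagramGroup.mk_eq.2 ?_
    change Htpy R x x (q ++ (L.1 ++ L'.1) ++ pinv q)
      ((q ++ L.1 ++ pinv q) ++ (q ++ L'.1 ++ pinv q))
    have e1 : (q ++ L.1 ++ pinv q) ++ (q ++ L'.1 ++ pinv q) =
        (q ++ L.1) ++ ((pinv q ++ q) ++ (L'.1 ++ pinv q)) := by simp only [List.append_assoc]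
    have e2 : q ++ (L.1 ++ L'.1) ++ pinv q = (q ++ L.1) ++ ([] ++ (L'.1 ++ pinv q)) := by
      simp only [List.append_assoc, List.nil_append]
    rw [e1, e2]
    refine Htpy.append_left (u := y) ?_ (hq.append L.2)
    exact Htpy.append_right (Htpy.symm _ _ (htpy_pinv_mul hq)) (L'.2.append hq.pinv)

theorem conj_bij (hq : IsPath R x q y) : Function.Bijective (conj hq) := by
  constructor
  · intro a b hab
    obtain ⟨L, rfl⟩ := DiagramGroup.exists_rep a
    obtain ⟨L', rfl⟩ := DiagramGroup.exists_rep b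
    have h1 : Htpy R x x (q ++ L.1 ++ pinv q) (q ++ L'.1 ++ pinv q) := DiagramGroup.mk_eq.1 hab
    have h2 := Htpy.append_right (Htpy.append_left h1 hq.pinv) hq
    have key : ∀ M : List (Edge α), IsPath R y M y →
        Htpy R y y (pinv q ++ (q ++ M ++ pinv q) ++ q) M := by
      intro M hM
      have e1 : pinv q ++ (q ++ M ++ pinv q) ++ q = (pinv q ++ q) ++ (M ++ (pinv q ++ q)) := by
        simp only [List.append_assoc]
      rw [e1]
      have t1 := Htpy.append (htpy_pinv_mul hq) (Htpy.append_left (htpy_pinv_mul hq) hM)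
      simpa using t1
    exact DiagramGroup.mk_eq.2 (Htpy.trans _ _ _ (Htpy.symm _ _ (key _ L.2))
      (Htpy.trans _ _ _ h2 (key _ L'.2)))
  · intro a
    obtain ⟨L, rfl⟩ := DiagramGroup.exists_rep a
    refine ⟨DiagramGroup.mk ⟨pinv q ++ L.1 ++ q, (hq.pinv.append L.2).append hq⟩, ?_⟩
    refine DiagramGroup.mk_eq.2 ?_
    change Htpy R x x (q ++ (pinv q ++ L.1 ++ q) ++ pinv q) L.1
    have e1 : q ++ (pinv q ++ L.1 ++ q) ++ pinv q = (q ++ pinv q) ++ (L.1 ++ (q ++ pinv q)) := by
      simp only [List.append_assoc]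
    rw [e1]
    have t1 := Htpy.append (htpy_mul_pinv hq) (Htpy.append_left (htpy_mul_pinv hq) L.2)
    simpa using t1

end base

/-- The diagram group of every good word is the given one. -/
theorem Data.iso {D : Data} {x : List ℕ} {p : List (Edge ℕ)} {v : List ℕ} (h : D.Good x p v)
    (hv : v = D.w1) : Nonempty (DiagramGroup D.R x ≃* DiagramGroup D.R1 D.w1) := by
  subst hv
  have e1 := MulEquiv.ofBijective _ (conj_bij h.path)
  have e2 := MulEquiv.ofBijective _ (Data.inc_bij (D := D))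
  exact ⟨(e2.trans e1).symm⟩

end Pool.Agent.Y59.RD
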