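import Mathlib
import Pool.Agent.Helper599.Source

set_option autoImplicit false

/-! A universal counter machine. -/

namespace Pool.Agent.Helper599.Source

open Turing Relation Pool.Agent.Helper599.Core
open Turing.PartrecToTM2 (trNat trList trNum trPosNum)

/-- A fixed finite counter machine which is universal. -/
theorem exists_sysU : ∃ (Q : Type) (_ : Finite Q) (M : Sys Q Bool) (q0 : Q) (N : ℕ → ℕ),
    Computable N ∧ ∀ n, M.Halts (some q0) (ini (N n)) ↔ (u n).Dom := by
  classical
  obtain ⟨Λ, i1, i2, M, hM⟩ := exists_machine
  have fK : Finite PartrecToTM2.K' := by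
    refine Finite.of_injective (fun k : PartrecToTM2.K' => match k with
      | .main => (0 : Fin 4) | .rev => 1 | .aux => 2 | .stack => 3) ?_
    intro a b h
    cases a <;> cases b <;> simp_all
  have fG : Finite (TM2to1.Γ' PartrecToTM2.K' (fun _ => PartrecToTM2.Γ')) :=
    inferInstanceAs (Finite (Bool × (PartrecToTM2.K' → Option PartrecToTM2.Γ')))
  let _ : Fintype (TM2to1.Γ' PartrecToTM2.K' (fun _ => PartrecToTM2.Γ')) := Fintype.ofFinite _
  let N : ℕ → ℕ := fun n => enc (sym true .cons :: (trNat n).reverse.map (sym false))
  refine ⟨Λ, i2, sys M, default, N, ?_, ?_⟩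
  · have h1 := digits_computable (fun a => kap (sym false a))
    have h2 : Computable (fun n : ℕ => ((trNat n).map (fun a => kap (sym false a))).reverse) :=
      Primrec.list_reverse.to_comp.comp h1
    have h3 := (foldr_computable
      (bas (TM2to1.Γ' PartrecToTM2.K' (fun _ => PartrecToTM2.Γ')))).comp h2
    have h4 : Computable (fun x : ℕ => kap (sym true .cons) +
        (bas (TM2to1.Γ' PartrecToTM2.K' (fun _ => PartrecToTM2.Γ'))) * x) :=
      (Primrec.nat_add.comp (Primrec.const _)
        (Primrec.nat_mul.comp (Primrec.const _) Primrec.id)).to_comp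
    refine (h4.comp h3).of_eq ?_
    intro n
    have e : ∀ l : List PartrecToTM2.Γ', enc (l.map (sym false)) =
        (l.map (fun a => kap (sym false a))).foldr (fun d acc => d +
          (bas (TM2to1.Γ' PartrecToTM2.K' (fun _ => PartrecToTM2.Γ'))) * acc) 0 := by
      intro l
      induction l with
      | nil => rfl
      | cons a l ih =>
        simp only [List.map_cons, enc, List.foldr_cons, ih]
    simp only [N, enc]
    rw [e, List.map_reverse]
  · intro n
    rw [← hM n]
    apply halts_iff
    constructor
    · have := rep_enc (sym true .cons :: (trNat n).reverse.map (sym false))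
      have e : (Tape.mk₁ (sym true PartrecToTM2.Γ'.cons :: (trNat n).reverse.map
          (sym false))).right₀ = ListBlank.mk (sym true .cons ::
            (trNat n).reverse.map (sym false)) := by
        unfold Tape.mk₁ Tape.mk₂
        rw [Tape.mk'_right₀]
      simp only [TM0.init, e]
      exact this
    · exact rep_zero

/-- every recursively enumerable predicate reduces to the domain of `u` -/
theorem re_reduce (p : ℕ → Prop) (hp : REPred p) :
    ∃ g : ℕ → ℕ, Computable g ∧ ∀ n, p n ↔ (u (g n)).Dom := by
  classical
  have h1 : Partrec (fun m : ℕ => (Part.assert (p m.unpair.1) fun _ => Part.some (0 : ℕ))) := by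
    have h2 : Partrec (fun m : ℕ => (Part.assert (p m.unpair.1) fun _ => Part.some ())) :=
      hp.comp (Computable.fst.comp Computable.unpair)
    have h3 := h2.map (g := fun _ _ => (0 : ℕ)) (Computable.const 0).to₂
    refine h3.of_eq ?_
    intro m
    by_cases hm : p m.unpair.1
    · rw [Part.assert_pos hm, Part.assert_pos hm]
      rfl
    · rw [Part.assert_neg hm, Part.assert_neg hm]
      exact Part.map_none _
  obtain ⟨c, hc⟩ := Nat.Partrec.Code.exists_code.1 (Partrec.nat_iff.1 h1)
  refine ⟨fun n => Encodable.encode (Nat.Partrec.Code.curry c n), ?_, ?_⟩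
  · exact Computable.encode.comp ((Nat.Partrec.Code.primrec₂_curry.comp
      (Primrec.const c) Primrec.id).to_comp)
  · intro n
    unfold u
    rw [Denumerable.ofNat_encode, Nat.Partrec.Code.eval_curry, hc]
    have e1 : (Nat.unpair (Nat.pair n 0)).1 = n := by rw [Nat.unpair_pair]
    constructor
    · intro h
      have h' : p (Nat.unpair (Nat.pair n 0)).1 := by rw [e1]; exact h
      beta_reduce
      rw [Part.assert_pos h']
      trivial
    · intro h
      by_contra h'
      have h'' : ¬ p (Nat.unpair (Nat.pair n 0)).1 := by rw [e1]; exact h'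
      beta_reduce at h
      rw [Part.assert_neg h''] at h
      exact h

end Pool.Agent.Helper599.Source
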