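import Mathlib
import Pool.Agent.Y59.RD.Mach
import Pool.Agent.Y59.RD.Ret2
import Pool.Agent.Y59.RD.Src

set_option autoImplicit false

/-! Assembly. -/

namespace Pool.Agent.H476R3.DiagMach.RD59

open Pool.Agent.Helper599.Core Pool.Agent.H476R3.Diag Relation
open Pool.Agent.Y59.RD (kap Data)

variable {Q : Type} (M : Sys Q Bool) (code : Sym Q M.B → ℕ)

/-- the coded relations of the machine -/
def RMs : Set (List ℕ × List ℕ) :=
  {ρ | ∃ s y w, dl M s y = some w ∧ ρ = ((lhs s y).map code, w.map code)}

theorem RMs_finite [Finite Q] : (RMs M code).Finite := by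
  have := sym_finite Q M.B
  refine Set.Finite.subset (Set.finite_range (fun p : Sym Q M.B × Sym Q M.B =>
    (((lhs p.1 p.2).map code, ((dl M p.1 p.2).getD []).map code) : List ℕ × List ℕ))) ?_
  rintro ρ ⟨s, y, w, h, rfl⟩
  exact ⟨(s, y), by simp [h]⟩

variable {M code}

theorem RMs_sub (q0 : Q) : RMs M code ⊆ rels M q0 0 code := by
  rintro ρ ⟨s, y, w, h, rfl⟩
  exact ⟨s, y, w, (dl_δ M q0 h).2, rfl⟩

theorem side_mem (q0 : Q) {r : List ℕ × List ℕ} (hr : r ∈ RMs M code) (f : Bool) :
    side r f ≠ [] ∧ ∀ n ∈ side r f, ∃ s, code s = n := by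
  obtain ⟨s, y, w, h, rfl⟩ := hr
  cases f with
  | true =>
    refine ⟨?_, ?_⟩
    · simp only [side, if_true]
      unfold lhs
      split_ifs <;> simp
    · intro n hn
      simp only [side, if_true] at hn
      obtain ⟨t, -, rfl⟩ := List.mem_map.1 hn
      exact ⟨t, rfl⟩
  | false =>
    refine ⟨?_, ?_⟩
    · simp only [side, Bool.false_eq_true, if_false]
      intro h0
      have h2 : w = [] := by simpa using h0
      have h1 := (δ_act 0 s y w (dl_δ M q0 h).2).2.2
      rw [h2] at h1
      simp at h1
    · intro n hn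
      simp only [side, Bool.false_eq_true, if_false] at hn
      obtain ⟨t, -, rfl⟩ := List.mem_map.1 hn
      exact ⟨t, rfl⟩

/-- the source of a machine edge -/
theorem src_form {e : Edge ℕ} (he : e.r ∈ RMs M code) (hf : e.fwd = true) :
    ∃ (s : Sym Q M.B) (A C : List ℕ), s ≠ .X ∧ s.act = true ∧ e.src = A ++ code s :: C := by
  obtain ⟨a, ρ, b, f⟩ := e
  obtain ⟨s, y, w, h, hρ⟩ := he
  simp only at hρ hf
  subst hρ; subst hf
  refine ⟨s, if s.lft then a ++ [code y] else a, if s.lft then b else code y :: b, ?_, ?_, ?_⟩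
  · rintro rfl
    rw [dl_X] at h
    cases h
  · cases s <;> cases y <;> first | rfl | (simp [dl] at h)
  · simp only [Edge.src, side, if_true]
    unfold lhs
    split_ifs <;> simp

theorem no_X (hc : Function.Injective code) {e : Edge ℕ} (he : e.r ∈ RMs M code)
    (hf : e.fwd = true) (hv : Valid M code e.src) (A C : List ℕ) :
    e.src ≠ A ++ code .X :: C := by
  classical
  intro h
  obtain ⟨s, A', C', h1, h2, h3⟩ := src_form he hf
  unfold Valid at hv
  rw [h] at h3 hv
  obtain ⟨-, h5, -⟩ := split_unique (p := fun n => decide (actc M code n)) _ _ _ _ _ _ h3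
    (decide_eq_true ⟨.X, rfl, rfl⟩) (decide_eq_true ⟨s, h2, rfl⟩) hv
  exact h1 (hc h5).symm

/-- the data of the attached tree -/
def dat (q0 : Q) (hc : Function.Injective code) (k : ℕ) (R1 : Set (List ℕ × List ℕ)) (w1 : List ℕ)
    (h1 : ∀ r ∈ R1, ∀ f, side r f ≠ [] ∧ ∀ n ∈ side r f, n < k) (hw1 : ∀ n ∈ w1, n < k)
    (hk : ∀ s, k + 2 ≤ code s) : Data where
  k := k
  R1 := R1
  w1 := w1
  RM := RMs M code
  br := [code .X, code .pct]
  VM := fun x => Valid M code x ∧ ∀ n ∈ x, k + 2 ≤ n
  h1 := h1
  hw1 := hw1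
  hM := by
    intro r hr f
    refine ⟨(side_mem q0 hr f).1, ?_⟩
    intro n hn
    obtain ⟨s, rfl⟩ := (side_mem q0 hr f).2 n hn
    exact hk s
  hbr := by
    refine ⟨by simp, ?_⟩
    intro n hn
    simp only [List.mem_cons, List.not_mem_nil, or_false] at hn
    rcases hn with rfl | rfl <;> exact hk _
  hVM := fun x hx => hx.2
  det := by
    intro e e' he he' hf hf' hv hs
    exact (Pool.Agent.H476R3.DiagMach.det hc).det e e' (RMs_sub q0 he) (RMs_sub q0 he') hf hf' hv.1 hs
  pres := by
    intro e he hv
    refine ⟨(Pool.Agent.H476R3.DiagMach.det hc).pres e (RMs_sub q0 he) hv.1, ?_⟩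
    intro n hn
    simp only [Edge.tgt, List.mem_append] at hn
    rcases hn with (hn | hn) | hn
    · exact hv.2 n (by simp [Edge.src, hn])
    · obtain ⟨s, rfl⟩ := (side_mem q0 he (!e.fwd)).2 n hn
      exact hk s
    · exact hv.2 n (by simp [Edge.src, hn])
  term := by
    intro e he hf hv a b h
    exact no_X hc he hf hv.1 a (code .pct :: b) (by rw [h]; simp)
  vbr := by
    classical
    refine ⟨?_, ?_⟩
    · have : ([code .X, code .pct] : List ℕ) = ([Sym.X, Sym.pct] : List (Sym Q M.B)).map code := rfl
      rw [this]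
      unfold Valid
      rw [countP_map hc]
      simp [Sym.act, List.countP_cons]
    · intro n hn
      simp only [List.mem_cons, List.not_mem_nil, or_false] at hn
      rcases hn with rfl | rfl <;> exact hk _

theorem tz_fpath {u v : List (Sym Q M.B)} (h : Tz M u v) :
    ∃ e, FPath (RMs M code) (u.map code) [e] (v.map code) := by
  unfold Tz at h
  obtain ⟨a, b, s, y, w, h1, rfl, rfl⟩ := h
  refine ⟨⟨a.map code, ((lhs s y).map code, w.map code), b.map code, true⟩, ⟨⟨s, y, w, h1, rfl⟩,
    ?_, ?_⟩, ?_⟩
  · simp [Edge.src, side]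
  · simp [Edge.tgt, side, isPath_nil]
  · intro e he
    rw [List.mem_singleton] at he
    subst he
    rfl

theorem rz_fpath {u v : List (Sym Q M.B)} (h : Rz M u v) :
    ∃ L, FPath (RMs M code) (u.map code) L (v.map code) := by
  induction h with
  | refl => exact ⟨[], FPath.nil _⟩
  | tail _ h' ih =>
    obtain ⟨L, hL⟩ := ih
    obtain ⟨e, he⟩ := tz_fpath (code := code) h'
    exact ⟨L ++ [e], hL.append he⟩

theorem vm_cfg (hc : Function.Injective code) (q : Q) (n : Bool → ℕ) (t : ℕ) :
    Valid M code ((cfg M q n t).map code) := by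
  classical
  unfold Valid
  rw [countP_map hc]
  unfold cfg
  simp [Sym.act, List.countP_cons, List.countP_append, List.countP_replicate]

theorem count_cfg (hc : Function.Injective code) (q : Q) (n : Bool → ℕ) (t : ℕ) :
    ((cfg M q n t).map code).count (code .clk) = t := by
  classical
  have : (List.map code (cfg M q n t)).count (code .clk) = (cfg M q n t).count .clk :=
    List.count_map_of_injective _ code hc _
  rw [this]
  unfold cfg
  simp [List.count_cons, List.count_append, List.count_replicate]

theorem X_cfg (hc : Function.Injective code) (q : Q) (n : Bool → ℕ) (t : ℕ) :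
    code .X ∉ (cfg M q n t).map code := by
  intro h
  obtain ⟨s, hs, he⟩ := List.mem_map.1 h
  have hX := hc he
  subst hX
  unfold cfg at hs
  simp [List.mem_replicate] at hs

/-- long paths -/
theorem long_path (hc : Function.Injective code) {q0 : Q} {n0 : Bool → ℕ}
    (h : ¬ M.Halts (some q0) n0) (t : ℕ) :
    ∃ (q : Q) (n : Bool → ℕ) (L : List (Edge ℕ)), ¬ M.Halts (some q) n ∧ t ≤ L.length ∧
      FPath (RMs M code) ((cfg M q0 n0 0).map code) L ((cfg M q n t).map code) := by
  induction t with
  | zero => exact ⟨q0, n0, [], h, le_refl _, FPath.nil _⟩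
  | succ t ih =>
    obtain ⟨q, n, L, h1, h2, h3⟩ := ih
    cases hn : M.nxt q (M.res n) with
    | none =>
      exact absurd (Sys.Halts.step q n (by rw [hn]; exact Sys.Halts.stop _)) h1
    | some q' =>
      obtain ⟨L', hL'⟩ := rz_fpath (code := code) (macro_step q q' n t hn)
      refine ⟨q', M.nn q n, L ++ L', ?_, ?_, h3.append hL'⟩
      · intro h4
        exact h1 (Sys.Halts.step q n (by rw [hn]; exact h4))
      · have : L' ≠ [] := by
          rintro rfl
          have h5 : (cfg M q n t).map code = (cfg M q' (M.nn q n) (t + 1)).map code := hL'.1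
          have h6 := congrArg (List.count (code .clk)) h5
          rw [count_cfg hc, count_cfg hc] at h6
          omega
        have := List.length_pos_iff.2 this
        rw [List.length_append]
        omega

section fin

variable (q0 : Q) (hc : Function.Injective code) (k : ℕ) (R1 : Set (List ℕ × List ℕ)) (w1 : List ℕ)
    (h1 : ∀ r ∈ R1, ∀ f, side r f ≠ [] ∧ ∀ n ∈ side r f, n < k) (hw1 : ∀ n ∈ w1, n < k)
    (hk : ∀ s, k + 2 ≤ code s)

/-- the machine halts -/
theorem halt_iso {N : ℕ} (hh : M.Halts (some q0) (Pool.Agent.Helper599.Source.ini N)) :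
    Nonempty (DiagramGroup (dat q0 hc k R1 w1 h1 hw1 hk).R
      ((cfg M q0 (Pool.Agent.Helper599.Source.ini N) 0).map code) ≃* DiagramGroup R1 w1) := by
  obtain ⟨L, hL⟩ := rz_fpath (code := code) (halts_reach hh q0 rfl 0)
  have hg : (dat q0 hc k R1 w1 h1 hw1 hk).Good
      ((cfg M q0 (Pool.Agent.Helper599.Source.ini N) 0).map code)
      (L ++ [(dat q0 hc k R1 w1 h1 hw1 hk).B]) w1 := by
    refine Or.inr ⟨⟨vm_cfg hc _ _ _, ?_⟩, rfl, L, ?_, rfl⟩
    · intro n hn
      obtain ⟨s, -, rfl⟩ := List.mem_map.1 hn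
      exact hk s
    · exact hL
  exact Data.iso hg rfl

/-- the machine does not halt -/
theorem no_halt {N : ℕ} (hh : ¬ M.Halts (some q0) (Pool.Agent.Helper599.Source.ini N)) :
    Subsingleton (DiagramGroup (dat q0 hc k R1 w1 h1 hw1 hk).R
      ((cfg M q0 (Pool.Agent.Helper599.Source.ini N) 0).map code)) := by
  classical
  set D := dat q0 hc k R1 w1 h1 hw1 hk with hD
  -- valid words: the machine never reaches `X`
  let V : List ℕ → Prop := fun x => D.VM x ∧ ∀ z A, FPath D.RM x A z → code .X ∉ z
  have hno : ∀ e : Edge ℕ, e.r ∈ D.R → V e.src → e.r ∈ D.RM := by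
    intro e he hv
    rcases he with he | he | he
    · exfalso
      obtain ⟨q1, q2⟩ := D.h1 e.r he e.fwd
      obtain ⟨n, hn⟩ := List.exists_mem_of_ne_nil _ q1
      have a1 := D.hVM _ hv.1 n (Data.mem_src hn)
      have a2 := q2 n hn
      omega
    · exact he
    · exfalso
      cases hf : e.fwd with
      | true =>
        refine hv.2 e.src [] (FPath.nil _) ?_
        have : e.src = e.a ++ [code .X, code .pct] ++ e.b := by
          simp only [Edge.src, hf, he, side, Data.brE, if_true]
          rfl
        rw [this]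
        simp
      | false =>
        have hk' : D.k ∈ e.src := by
          simp [Edge.src, hf, he, side, Data.brE, kap]
        have := D.hVM _ hv.1 _ hk'
        omega
  have hdet : Det D.R V := by
    constructor
    · intro e he hv
      have he' := hno e he hv
      refine ⟨D.pres e he' hv.1, ?_⟩
      intro z A hA
      cases hf : e.fwd with
      | true =>
        refine hv.2 z (e :: A) ⟨⟨he', rfl, hA.1⟩, ?_⟩
        intro x hx
        rcases List.mem_cons.1 hx with rfl | hx
        · exact hf
        · exact hA.2 x hx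
      | false =>
        have hvt : D.VM e.tgt := D.pres e he' hv.1
        cases A with
        | nil =>
          have hz : e.tgt = z := hA.1
          rw [← hz]
          intro hX
          obtain ⟨A', C', hAC⟩ := List.append_of_mem hX
          have h2 : e.inv.src = A' ++ code .X :: C' := by rw [Edge.src_inv, hAC]
          exact no_X (e := e.inv) hc he' (by simp [Edge.inv, hf])
            (by rw [Edge.src_inv]; exact hvt.1) A' C' h2
        | cons e' A =>
          obtain ⟨⟨q1, q2, q3⟩, q4⟩ := hA
          have hee : e.inv = e' := D.det e.inv e' he' q1 (by simp [Edge.inv, hf])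
            (q4 e' List.mem_cons_self) (by rw [Edge.src_inv]; exact hvt)
            (by rw [Edge.src_inv, q2])
          subst hee
          rw [Edge.tgt_inv] at q3
          exact hv.2 z A ⟨q3, fun x hx => q4 x (List.mem_cons_of_mem _ hx)⟩
    · intro e e' he he' hf hf' hv hs
      exact D.det e e' (hno e he hv) (hno e' he' (by rw [← hs]; exact hv)) hf hf' hv.1 hs
  -- forward paths of the machine
  have hsub : ∀ (L : List (Edge ℕ)) (x y : List ℕ), FPath D.RM x L y → FPath D.R x L y := by
    intro L
    induction L with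
    | nil => intro x y h; exact h
    | cons e L ih =>
      intro x y h
      obtain ⟨⟨q1, q2, q3⟩, q4⟩ := h
      have h2 := ih _ _ ⟨q3, fun x hx => q4 x (List.mem_cons_of_mem _ hx)⟩
      exact ⟨⟨Or.inr (Or.inl q1), q2, h2.1⟩, q4⟩
  have hVM0 : ∀ q n t, D.VM ((cfg M q n t).map code) := by
    intro q n t
    refine ⟨vm_cfg hc _ _ _, ?_⟩
    intro m hm
    obtain ⟨s, -, rfl⟩ := List.mem_map.1 hm
    exact hk s
  have hRM : Det D.RM D.VM := ⟨D.pres, D.det⟩
  have hV : V ((cfg M q0 (Pool.Agent.Helper599.Source.ini N) 0).map code) := by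
    refine ⟨hVM0 _ _ _, ?_⟩
    intro z A hA hX
    obtain ⟨q, n, L, -, h3, h4⟩ := long_path (code := code) hc hh (A.length + 1)
    obtain ⟨L', hL'⟩ := hRM.nested hA h4 (hVM0 _ _ _) (by omega)
    cases L' with
    | nil =>
      rw [hL', List.append_nil] at h3
      omega
    | cons e L' =>
      have h5 := h4.1
      rw [hL'] at h5
      obtain ⟨z', m1, m2⟩ := isPath_append.1 h5
      have hz : z' = z := m1.tgt_unique hA.1
      subst hz
      obtain ⟨m3, m4, m5⟩ := m2
      have hvz : D.VM z' := hRM.path m1 (hVM0 _ _ _)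
      have hfe : e.fwd = true := h4.2 e (by rw [hL']; simp)
      obtain ⟨A', C', hAC⟩ := List.append_of_mem hX
      exact no_X (e := e) hc m3 hfe (by rw [m4]; exact hvz.1) A' C' (by rw [m4]; exact hAC)
  have hcyc := hdet.no_cycle hV (fun v => v.count (code .clk)) (by
    intro K
    obtain ⟨q, n, L, -, -, h4⟩ := long_path (code := code) hc hh K
    exact ⟨_, L, hsub _ _ _ h4, by rw [count_cfg hc]⟩)
  have htriv := hdet.trivial hV hcyc
  exact ⟨fun x y => (htriv x).trans (htriv y).symm⟩

end fin

/-- The main construction: `D(F, W n)` is isomorphic to the given diagram group if `u n` is defined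
and trivial otherwise. -/
theorem main (k : ℕ) (F1 : List (List ℕ × List ℕ)) (w1 : List ℕ)
    (h1 : ∀ r ∈ F1, r.1 ≠ [] ∧ r.2 ≠ [] ∧ (∀ x ∈ r.1, x < k) ∧ (∀ x ∈ r.2, x < k))
    (hw1 : ∀ x ∈ w1, x < k) :
    ∃ (K : ℕ) (F : List (List ℕ × List ℕ)) (W : ℕ → List ℕ), Computable W ∧
      (∀ r ∈ F, r.1 ≠ [] ∧ r.2 ≠ [] ∧ (∀ x ∈ r.1, x < K) ∧ (∀ x ∈ r.2, x < K)) ∧
      (∀ n, W n ≠ [] ∧ ∀ x ∈ W n, x < K) ∧
      ∀ n, ((Pool.Agent.Helper599.Source.u n).Dom →
          Nonempty (DiagramGroup {r | r ∈ F} (W n) ≃* DiagramGroup {r | r ∈ F1} w1)) ∧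
        (¬ (Pool.Agent.Helper599.Source.u n).Dom →
          Subsingleton (DiagramGroup {r | r ∈ F} (W n))) := by
  classical
  obtain ⟨Q, hQ, M, q0, Nf, hN, hu⟩ := Pool.Agent.Helper599.Source.exists_sysU
  have hfin := sym_finite Q M.B
  obtain ⟨K0, ⟨e⟩⟩ := Finite.exists_equiv_fin (Sym Q M.B)
  let code : Sym Q M.B → ℕ := fun s => k + 2 + (e s : ℕ)
  have hc : Function.Injective code := fun s t h => e.injective (Fin.ext (by
    have : k + 2 + (e s : ℕ) = k + 2 + (e t : ℕ) := h
    omega))
  have hk : ∀ s, k + 2 ≤ code s := fun s => Nat.le_add_right _ _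
  have hK : ∀ s, code s < k + 2 + K0 := fun s => Nat.add_lt_add_left (e s).2 _
  have h1' : ∀ r ∈ {r | r ∈ F1}, ∀ f, side r f ≠ [] ∧ ∀ n ∈ side r f, n < k := by
    intro r hr f
    obtain ⟨a1, a2, a3, a4⟩ := h1 r hr
    cases f with
    | true => exact ⟨by simpa [side] using a1, by simpa [side] using a3⟩
    | false => exact ⟨by simpa [side] using a2, by simpa [side] using a4⟩
  let D := dat q0 hc k {r | r ∈ F1} w1 h1' hw1 hk
  let FM : List (List ℕ × List ℕ) := (RMs_finite M code).toFinset.toList
  have hFM : ∀ ρ, ρ ∈ FM ↔ ρ ∈ RMs M code := by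
    intro ρ
    simp [FM]
  let F : List (List ℕ × List ℕ) := D.brE :: (F1 ++ FM)
  have hF : {r | r ∈ F} = D.R := by
    ext ρ
    change ρ ∈ D.brE :: (F1 ++ FM) ↔ (ρ ∈ F1 ∨ ρ ∈ RMs M code ∨ ρ = D.brE)
    rw [List.mem_cons, List.mem_append, hFM]
    tauto
  let W : ℕ → List ℕ := fun n =>
    (cfg M q0 (Pool.Agent.Helper599.Source.ini (Nf n)) 0).map code
  refine ⟨k + 2 + K0, F, W, ?_, ?_, ?_, ?_⟩
  · have hW : W = fun n => [code .dol, code (.R q0 (z0 M))] ++
        (List.range (Nf n)).map (fun _ => code .one) ++ [code .hsh, code .pct] := by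
      funext n
      simp only [W]
      unfold cfg
      rw [replicate_eq]
      simp [Pool.Agent.Helper599.Source.ini]
    rw [hW]
    have h2 : Primrec (fun N : ℕ => [code .dol, code (.R q0 (z0 M))] ++
        (List.range N).map (fun _ => code .one) ++ [code .hsh, code .pct]) := by
      refine Primrec.list_append.comp (Primrec.list_append.comp (Primrec.const _) ?_)
        (Primrec.const _)
      exact Primrec.list_map Primrec.list_range (Primrec.const _).to₂
    exact h2.to_comp.comp hN
  · intro r hr
    have hr' : r ∈ D.R := by rw [← hF]; exact hr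
    have hside : ∀ f, side r f ≠ [] ∧ ∀ n ∈ side r f, n < k + 2 + K0 := by
      intro f
      rcases hr' with hr' | hr' | hr'
      · refine ⟨(h1' r hr' f).1, fun n hn => ?_⟩
        have := (h1' r hr' f).2 n hn
        omega
      · refine ⟨(side_mem q0 hr' f).1, fun n hn => ?_⟩
        obtain ⟨s, rfl⟩ := (side_mem q0 hr' f).2 n hn
        exact hK s
      · subst hr'
        cases f with
        | true =>
          refine ⟨by simp [side, Data.brE, D, dat], fun n hn => ?_⟩
          have hn' : n ∈ ([code .X, code .pct] : List ℕ) := by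
            simpa [side, Data.brE, D, dat] using hn
          simp only [List.mem_cons, List.not_mem_nil, or_false] at hn'
          rcases hn' with rfl | rfl <;> exact hK _
        | false =>
          refine ⟨by simp [side, Data.brE, kap], fun n hn => ?_⟩
          have hn' : n ∈ kap k w1 := by
            simpa [side, Data.brE, D, dat] using hn
          unfold kap at hn'
          simp only [List.mem_cons, List.mem_append, List.not_mem_nil, or_false] at hn'
          rcases hn' with hn' | hn' | hn'
          · omega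
          · have := hw1 n hn'; omega
          · omega
    refine ⟨by simpa [side] using (hside true).1, by simpa [side] using (hside false).1,
      by simpa [side] using (hside true).2, by simpa [side] using (hside false).2⟩
  · intro n
    refine ⟨by simp [W, cfg], ?_⟩
    intro x hx
    obtain ⟨s, -, rfl⟩ := List.mem_map.1 hx
    exact hK s
  · intro n
    rw [hF]
    refine ⟨fun h => ?_, fun h => ?_⟩
    · exact halt_iso q0 hc k _ w1 h1' hw1 hk ((hu n).2 h)
    · exact no_halt q0 hc k _ w1 h1' hw1 hk (fun h' => h ((hu n).1 h'))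

end Pool.Agent.H476R3.DiagMach.RD59
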