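import Mathlib
import Pool.Agent.H476R3.DiagDet

set_option autoImplicit false

/-! Direct products and relabelling of diagram groups. -/

namespace Pool.Agent.Y59.RD

open Pool.Agent.H476R3.Diag

section proj

/-- the relations have nonempty sides with letters in `p` -/
def Over (p : ℕ → Bool) (R : Set (List ℕ × List ℕ)) : Prop :=
  ∀ r ∈ R, ∀ f, side r f ≠ [] ∧ ∀ n ∈ side r f, p n = true

variable (p : ℕ → Bool) (RA R : Set (List ℕ × List ℕ))

open Classical in
/-- projection of an edge -/
noncomputable def pr (e : Edge ℕ) : List (Edge ℕ) :=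
  if e.r ∈ RA then [⟨e.a.filter p, e.r, e.b.filter p, e.fwd⟩] else []

/-- projection of a path -/
noncomputable def Pr (L : List (Edge ℕ)) : List (Edge ℕ) := L.flatMap (pr p RA)

/-- the hypothesis on the relations -/
def Sep : Prop := Over p RA ∧ ∀ r ∈ R, r ∈ RA ∨ ∀ f, ∀ n ∈ side r f, p n = false

variable {p RA R}

theorem Pr_append (L L' : List (Edge ℕ)) : Pr p RA (L ++ L') = Pr p RA L ++ Pr p RA L' := by
  simp [Pr]

theorem Pr_cons (e : Edge ℕ) (L : List (Edge ℕ)) : Pr p RA (e :: L) = pr p RA e ++ Pr p RA L := by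
  simp [Pr]

theorem filt_in (hs : Sep p RA R) {r : List ℕ × List ℕ} (hr : r ∈ RA) (f : Bool) :
    (side r f).filter p = side r f :=
  List.filter_eq_self.2 (hs.1 r hr f).2

theorem filt_out (hs : Sep p RA R) {r : List ℕ × List ℕ} (hr : r ∈ R) (hr' : r ∉ RA) (f : Bool) :
    (side r f).filter p = [] := by
  rw [List.filter_eq_nil_iff]
  intro n hn
  rcases hs.2 r hr with h | h
  · exact absurd h hr'
  · simp [h f n hn]

theorem Pr_path (hs : Sep p RA R) {u v : List ℕ} {L : List (Edge ℕ)} (h : IsPath R u L v) :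
    IsPath RA (u.filter p) (Pr p RA L) (v.filter p) := by
  induction L generalizing u with
  | nil =>
    have : u = v := h
    subst this
    rfl
  | cons e L ih =>
    obtain ⟨h1, rfl, h3⟩ := h
    rw [Pr_cons]
    refine IsPath.append (v := e.tgt.filter p) ?_ (ih h3)
    by_cases hr : e.r ∈ RA
    · have e1 : pr p RA e = [⟨e.a.filter p, e.r, e.b.filter p, e.fwd⟩] := by simp [pr, hr]
      rw [e1]
      refine ⟨hr, ?_, ?_⟩
      · simp only [Edge.src, List.filter_append, filt_in hs hr]
      · rw [isPath_nil]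
        simp only [Edge.tgt, List.filter_append, filt_in hs hr]
    · have e1 : pr p RA e = [] := by simp [pr, hr]
      rw [e1, isPath_nil]
      simp only [Edge.src, Edge.tgt, List.filter_append, filt_out hs h1 hr]

theorem Pr_elem (hs : Sep p RA R) {u v : List ℕ} {L L' : List (Edge ℕ)} (h : IsPath R u L v)
    (h' : IsPath R u L' v) (he : Elem L L') :
    Htpy RA (u.filter p) (v.filter p) (Pr p RA L) (Pr p RA L') := by
  have hp := Pr_path hs h
  have hp' := Pr_path hs h'
  have hrefl : Pr p RA L = Pr p RA L' →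
      Htpy RA (u.filter p) (v.filter p) (Pr p RA L) (Pr p RA L') := by
    intro e
    rw [← e]
    exact Htpy.refl _ hp
  cases he with
  | cancel L₁ e L₂ =>
    by_cases hr : e.r ∈ RA
    · refine Htpy.elem _ _ hp hp' ?_
      have e1 : Pr p RA (L₁ ++ e :: e.inv :: L₂) = Pr p RA L₁ ++
          (⟨e.a.filter p, e.r, e.b.filter p, e.fwd⟩ : Edge ℕ) ::
            (⟨e.a.filter p, e.r, e.b.filter p, e.fwd⟩ : Edge ℕ).inv :: Pr p RA L₂ := by
        rw [Pr_append, Pr_cons, Pr_cons]
        simp [pr, hr, Edge.inv]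
      rw [e1, Pr_append]
      exact Elem.cancel _ _ _
    · apply hrefl
      rw [Pr_append, Pr_cons, Pr_cons, Pr_append]
      simp [pr, hr]
  | square L₁ a r b s c f g L₂ =>
    obtain ⟨x1, m1, m2⟩ := isPath_append.1 h
    obtain ⟨n1, n2, n3⟩ := m2
    obtain ⟨n4, n5, n6⟩ := n3
    have n1 : r ∈ R := n1
    have n4 : s ∈ R := n4
    by_cases hr : r ∈ RA
    · by_cases hs1 : s ∈ RA
      · refine Htpy.elem _ _ hp hp' ?_
        have := Elem.square (Pr p RA L₁) (a.filter p) r (b.filter p) s (c.filter p) f g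
          (Pr p RA L₂)
        rw [Pr_append, Pr_cons, Pr_cons, Pr_append, Pr_cons, Pr_cons]
        simp only [pr, hr, hs1, if_true, List.filter_append, filt_in hs hr, filt_in hs hs1,
          List.cons_append, List.nil_append]
        exact this
      · apply hrefl
        rw [Pr_append, Pr_cons, Pr_cons, Pr_append, Pr_cons, Pr_cons]
        simp only [pr, hr, hs1, if_true, if_false, List.filter_append, filt_out hs n4 hs1,
          List.cons_append, List.nil_append, List.append_nil]
    · apply hrefl
      rw [Pr_append, Pr_cons, Pr_cons, Pr_append, Pr_cons, Pr_cons]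
      by_cases hs1 : s ∈ RA
      · simp only [pr, hr, hs1, if_true, if_false, List.filter_append, filt_out hs n1 hr,
          List.cons_append, List.nil_append, List.append_nil]
      · simp only [pr, hr, hs1, if_false]

theorem Pr_htpy (hs : Sep p RA R) {u v : List ℕ} {L L' : List (Edge ℕ)}
    (h : Htpy R u v L L') :
    Htpy RA (u.filter p) (v.filter p) (Pr p RA L) (Pr p RA L') := by
  induction h with
  | refl L h => exact Htpy.refl _ (Pr_path hs h)
  | elem L L' h h' e => exact Pr_elem hs h h' e
  | symm L L' _ ih => exact Htpy.symm _ _ ih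
  | trans L L' L'' _ _ ih ih' => exact Htpy.trans _ _ _ ih ih'

end proj

section incl

variable {RA R : Set (List ℕ × List ℕ)}

/-- adding a word on the right -/
def inA (y : List ℕ) (e : Edge ℕ) : Edge ℕ := ⟨e.a, e.r, e.b ++ y, e.fwd⟩

/-- adding a word on the left -/
def inB (x : List ℕ) (e : Edge ℕ) : Edge ℕ := ⟨x ++ e.a, e.r, e.b, e.fwd⟩

theorem inA_src (y : List ℕ) (e : Edge ℕ) : (inA y e).src = e.src ++ y := by
  simp [inA, Edge.src]
theorem inA_tgt (y : List ℕ) (e : Edge ℕ) : (inA y e).tgt = e.tgt ++ y := by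
  simp [inA, Edge.tgt]
theorem inB_src (x : List ℕ) (e : Edge ℕ) : (inB x e).src = x ++ e.src := by
  simp [inB, Edge.src]
theorem inB_tgt (x : List ℕ) (e : Edge ℕ) : (inB x e).tgt = x ++ e.tgt := by
  simp [inB, Edge.tgt]

theorem inA_path (hR : RA ⊆ R) (y : List ℕ) {u v : List ℕ} {L : List (Edge ℕ)}
    (h : IsPath RA u L v) : IsPath R (u ++ y) (L.map (inA y)) (v ++ y) := by
  induction L generalizing u with
  | nil =>
    have : u = v := h
    subst this
    rfl
  | cons e L ih =>
    obtain ⟨h1, rfl, h3⟩ := h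
    exact ⟨hR h1, inA_src y e, by rw [inA_tgt]; exact ih h3⟩

theorem inB_path (hR : RA ⊆ R) (x : List ℕ) {u v : List ℕ} {L : List (Edge ℕ)}
    (h : IsPath RA u L v) : IsPath R (x ++ u) (L.map (inB x)) (x ++ v) := by
  induction L generalizing u with
  | nil =>
    have : u = v := h
    subst this
    rfl
  | cons e L ih =>
    obtain ⟨h1, rfl, h3⟩ := h
    exact ⟨hR h1, inB_src x e, by rw [inB_tgt]; exact ih h3⟩

theorem inA_elem (y : List ℕ) {L L' : List (Edge ℕ)} (h : Elem L L') :
    Elem (L.map (inA y)) (L'.map (inA y)) := by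
  cases h with
  | cancel L₁ e L₂ =>
    simp only [List.map_append, List.map_cons]
    exact Elem.cancel _ _ _
  | square L₁ a r b s c f g L₂ =>
    have := Elem.square (L₁.map (inA y)) a r b s (c ++ y) f g (L₂.map (inA y))
    simp only [List.map_append, List.map_cons, inA, List.append_assoc] at this ⊢
    exact this

theorem inB_elem (x : List ℕ) {L L' : List (Edge ℕ)} (h : Elem L L') :
    Elem (L.map (inB x)) (L'.map (inB x)) := by
  cases h with
  | cancel L₁ e L₂ =>
    simp only [List.map_append, List.map_cons]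
    exact Elem.cancel _ _ _
  | square L₁ a r b s c f g L₂ =>
    have := Elem.square (L₁.map (inB x)) (x ++ a) r b s c f g (L₂.map (inB x))
    simp only [List.map_append, List.map_cons, inB, List.append_assoc] at this ⊢
    exact this

theorem inA_htpy (hR : RA ⊆ R) (y : List ℕ) {u v : List ℕ} {L L' : List (Edge ℕ)}
    (h : Htpy RA u v L L') : Htpy R (u ++ y) (v ++ y) (L.map (inA y)) (L'.map (inA y)) := by
  induction h with
  | refl L h => exact Htpy.refl _ (inA_path hR y h)
  | elem L L' h h' e => exact Htpy.elem _ _ (inA_path hR y h) (inA_path hR y h') (inA_elem y e)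
  | symm L L' _ ih => exact Htpy.symm _ _ ih
  | trans L L' L'' _ _ ih ih' => exact Htpy.trans _ _ _ ih ih'

theorem inB_htpy (hR : RA ⊆ R) (x : List ℕ) {u v : List ℕ} {L L' : List (Edge ℕ)}
    (h : Htpy RA u v L L') : Htpy R (x ++ u) (x ++ v) (L.map (inB x)) (L'.map (inB x)) := by
  induction h with
  | refl L h => exact Htpy.refl _ (inB_path hR x h)
  | elem L L' h h' e => exact Htpy.elem _ _ (inB_path hR x h) (inB_path hR x h') (inB_elem x e)
  | symm L L' _ ih => exact Htpy.symm _ _ ih
  | trans L L' L'' _ _ ih ih' => exact Htpy.trans _ _ _ ih ih'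

/-- moving an edge of the right factor to the front -/
theorem comm_path (hR : RA ⊆ R) {x x' : List ℕ} {L : List (Edge ℕ)} (h : IsPath RA x L x')
    (e' : Edge ℕ) (he' : e'.r ∈ R) :
    Htpy R (x ++ e'.src) (x' ++ e'.tgt) (L.map (inA e'.src) ++ [inB x' e'])
      (inB x e' :: L.map (inA e'.tgt)) := by
  induction L generalizing x with
  | nil =>
    have : x = x' := h
    subst this
    refine Htpy.refl _ ⟨he', inB_src x e', ?_⟩
    rw [isPath_nil, inB_tgt]
  | cons e L ih =>
    obtain ⟨h1, rfl, h3⟩ := h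
    have t1 := ih h3
    have p1 : IsPath R (e.src ++ e'.src) [inA e'.src e] (e.tgt ++ e'.src) :=
      ⟨hR h1, inA_src _ e, by rw [isPath_nil, inA_tgt]⟩
    have t2 := t1.append_left p1
    refine Htpy.trans _ _ _ t2 ?_
    refine Htpy.elem _ _ t2.isPath.2 ?_ ?_
    · refine ⟨he', inB_src _ _, hR h1, ?_, ?_⟩
      · rw [inA_src, inB_tgt]
      · rw [inA_tgt]
        exact inA_path hR _ h3
    · have := Elem.square [] e.a e.r (e.b ++ e'.a) e'.r e'.b e.fwd e'.fwd (L.map (inA e'.tgt))
      simp only [List.nil_append, List.append_assoc, Edge.tgt] at this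
      simp only [inA, inB, Edge.src, Edge.tgt, List.cons_append, List.nil_append,
        List.append_assoc, List.map_cons]
      exact this

end incl

end Pool.Agent.Y59.RD
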