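import Mathlib
import Pool.Agent.Y59.RD.Prod

set_option autoImplicit false

/-! Direct products of diagram groups. -/

namespace Pool.Agent.Y59.RD

open Pool.Agent.H476R3.Diag

/-- letters on the left -/
def pA (K : ℕ) (n : ℕ) : Bool := decide (n < K)

/-- letters on the right -/
def pB (K : ℕ) (n : ℕ) : Bool := decide (K ≤ n)

section split

variable {K : ℕ} {a s b x y : List ℕ}

theorem split_left (hs : s ≠ []) (hl : ∀ n ∈ s, n < K) (hy : ∀ n ∈ y, K ≤ n)
    (h : a ++ s ++ b = x ++ y) : ∃ b1, b = b1 ++ y ∧ x = a ++ s ++ b1 := by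
  rw [List.append_assoc] at h
  rcases List.append_eq_append_iff.1 h with ⟨c, h1, h2⟩ | ⟨c, h1, h2⟩
  · -- x = a ++ c, s ++ b = c ++ y
    rcases List.append_eq_append_iff.1 h2 with ⟨d, h3, h4⟩ | ⟨d, h3, h4⟩
    · exact ⟨d, h4, by rw [h1, h3, List.append_assoc]⟩
    · cases d with
      | nil =>
        rw [List.append_nil] at h3
        rw [List.nil_append] at h4
        exact ⟨[], by rw [List.nil_append, h4], by rw [h1, h3, List.append_nil]⟩
      | cons n d =>
        exfalso
        have q1 := hl n (by rw [h3]; simp)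
        have q2 := hy n (by rw [h4]; simp)
        omega
  · -- a = x ++ c, y = c ++ (s ++ b)
    exfalso
    obtain ⟨n, hn⟩ := List.exists_mem_of_ne_nil s hs
    have q1 := hl n hn
    have q2 := hy n (by rw [h2]; simp [hn])
    omega

theorem split_right (hs : s ≠ []) (hl : ∀ n ∈ s, K ≤ n) (hx : ∀ n ∈ x, n < K)
    (h : a ++ s ++ b = x ++ y) : ∃ a1, a = x ++ a1 ∧ y = a1 ++ s ++ b := by
  rw [List.append_assoc] at h
  rcases List.append_eq_append_iff.1 h with ⟨c, h1, h2⟩ | ⟨c, h1, h2⟩
  · -- x = a ++ c, s ++ b = c ++ y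
    cases c with
    | nil =>
      rw [List.append_nil] at h1
      rw [List.nil_append] at h2
      exact ⟨[], by rw [h1, List.append_nil], by rw [List.nil_append, h2]⟩
    | cons n c =>
      exfalso
      cases s with
      | nil => exact hs rfl
      | cons m s =>
        simp only [List.cons_append, List.cons.injEq] at h2
        have q1 := hl m (by simp)
        have q2 := hx n (by rw [h1]; simp)
        omega
  · exact ⟨c, h1, by rw [h2, List.append_assoc]⟩

end split

section prod

variable {K : ℕ} {RA RB : Set (List ℕ × List ℕ)}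

/-- all relations -/
abbrev RU (RA RB : Set (List ℕ × List ℕ)) : Set (List ℕ × List ℕ) := {r | r ∈ RA ∨ r ∈ RB}

theorem sepA (hA : Over (pA K) RA) (hB : Over (pB K) RB) : Sep (pA K) RA (RU RA RB) := by
  refine ⟨hA, ?_⟩
  intro r hr
  rcases hr with hr | hr
  · exact Or.inl hr
  · right
    intro f n hn
    have := (hB r hr f).2 n hn
    simp only [pB, decide_eq_true_eq] at this
    simp only [pA, decide_eq_false_iff_not]
    omega

theorem sepB (hA : Over (pA K) RA) (hB : Over (pB K) RB) : Sep (pB K) RB (RU RA RB) := by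
  refine ⟨hB, ?_⟩
  intro r hr
  rcases hr with hr | hr
  · right
    intro f n hn
    have := (hA r hr f).2 n hn
    simp only [pA, decide_eq_true_eq] at this
    simp only [pB, decide_eq_false_iff_not]
    omega
  · exact Or.inl hr

theorem filtA {x y : List ℕ} (hx : ∀ n ∈ x, n < K) (hy : ∀ n ∈ y, K ≤ n) :
    (x ++ y).filter (pA K) = x := by
  rw [List.filter_append, List.filter_eq_self.2, List.filter_eq_nil_iff.2, List.append_nil]
  · intro n hn
    have := hy n hn
    simp only [pA, decide_eq_true_eq]
    omega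
  · intro n hn
    have := hx n hn
    simp only [pA, decide_eq_true_eq]
    omega

theorem filtB {x y : List ℕ} (hx : ∀ n ∈ x, n < K) (hy : ∀ n ∈ y, K ≤ n) :
    (x ++ y).filter (pB K) = y := by
  rw [List.filter_append, List.filter_eq_nil_iff.2, List.filter_eq_self.2, List.nil_append]
  · intro n hn
    have := hy n hn
    simp only [pB, decide_eq_true_eq]
    omega
  · intro n hn
    have := hx n hn
    simp only [pB, decide_eq_true_eq]
    omega

theorem claimP (hA : Over (pA K) RA) (hB : Over (pB K) RB) (Z : List (Edge ℕ)) :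
    ∀ x y z : List ℕ, (∀ n ∈ x, n < K) → (∀ n ∈ y, K ≤ n) → IsPath (RU RA RB) (x ++ y) Z z →
      ∃ x' y', z = x' ++ y' ∧ (∀ n ∈ x', n < K) ∧ (∀ n ∈ y', K ≤ n) ∧
        Htpy (RU RA RB) (x ++ y) z Z
          ((Pr (pA K) RA Z).map (inA y) ++ (Pr (pB K) RB Z).map (inB x')) := by
  induction Z with
  | nil =>
    intro x y z hx hy h
    have : x ++ y = z := h
    subst this
    exact ⟨x, y, rfl, hx, hy, Htpy.refl _ rfl⟩
  | cons e Z ih =>
    intro x y z hx hy h
    have hZ := h
    obtain ⟨h1, h2, h3⟩ := h
    have pe : IsPath (RU RA RB) (x ++ y) [e] e.tgt := ⟨h1, h2, rfl⟩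
    rw [Pr_cons, Pr_cons]
    by_cases hr : e.r ∈ RA
    · obtain ⟨q1, q2⟩ := hA e.r hr e.fwd
      have q2' : ∀ n ∈ side e.r e.fwd, n < K := by
        intro n hn; simpa [pA] using q2 n hn
      obtain ⟨b1, hb, hx1⟩ := split_left q1 q2' hy h2
      have hlow : ∀ n ∈ e.a ++ side e.r (!e.fwd) ++ b1, n < K := by
        intro n hn
        rw [List.mem_append, List.mem_append] at hn
        rcases hn with (hn | hn) | hn
        · exact hx n (by rw [hx1]; simp [hn])
        · simpa [pA] using (hA e.r hr (!e.fwd)).2 n hn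
        · exact hx n (by rw [hx1]; simp [hn])
      have htgt : e.tgt = (e.a ++ side e.r (!e.fwd) ++ b1) ++ y := by
        simp only [Edge.tgt, hb, List.append_assoc]
      rw [htgt] at h3
      obtain ⟨x', y', g1, g2, g3, g4⟩ := ih _ _ _ hlow hy h3
      refine ⟨x', y', g1, g2, g3, ?_⟩
      have hfa : e.a.filter (pA K) = e.a := List.filter_eq_self.2 (by
        intro n hn
        have := hx n (by rw [hx1]; simp [hn])
        simpa [pA] using this)
      have hfb : e.b.filter (pA K) = b1 := by
        rw [hb]
        exact filtA (fun n hn => hx n (by rw [hx1]; simp [hn])) hy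
      have e1 : pr (pA K) RA e = [⟨e.a, e.r, b1, e.fwd⟩] := by
        simp only [pr, hr, if_true, hfa, hfb]
      have e2 : pr (pB K) RB e = [] := by
        have : e.r ∉ RB := by
          intro h
          obtain ⟨n, hn⟩ := List.exists_mem_of_ne_nil _ q1
          have t1 := q2' n hn
          have t2 := (hB e.r h e.fwd).2 n hn
          simp only [pB, decide_eq_true_eq] at t2
          omega
        simp [pr, this]
      have e3 : inA y (⟨e.a, e.r, b1, e.fwd⟩ : Edge ℕ) = e := by
        simp only [inA, ← hb]
      rw [e1, e2]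
      simp only [List.cons_append, List.nil_append, List.map_cons, e3]
      have t1 := g4.append_left (w := x ++ y) (A := [e]) ⟨h1, h2, htgt⟩
      simpa using t1
    · have hrB : e.r ∈ RB := by
        rcases h1 with h | h
        · exact absurd h hr
        · exact h
      obtain ⟨q1, q2⟩ := hB e.r hrB e.fwd
      have q2' : ∀ n ∈ side e.r e.fwd, K ≤ n := by
        intro n hn; simpa [pB] using q2 n hn
      obtain ⟨a1, ha, hy1⟩ := split_right q1 q2' hx h2
      have hhigh : ∀ n ∈ a1 ++ side e.r (!e.fwd) ++ e.b, K ≤ n := by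
        intro n hn
        rw [List.mem_append, List.mem_append] at hn
        rcases hn with (hn | hn) | hn
        · exact hy n (by rw [hy1]; simp [hn])
        · simpa [pB] using (hB e.r hrB (!e.fwd)).2 n hn
        · exact hy n (by rw [hy1]; simp [hn])
      have htgt : e.tgt = x ++ (a1 ++ side e.r (!e.fwd) ++ e.b) := by
        simp only [Edge.tgt, ha, List.append_assoc]
      rw [htgt] at h3
      obtain ⟨x', y', g1, g2, g3, g4⟩ := ih _ _ _ hx hhigh h3
      refine ⟨x', y', g1, g2, g3, ?_⟩
      have hfa : e.a.filter (pB K) = a1 := by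
        rw [ha]
        exact filtB hx (fun n hn => hy n (by rw [hy1]; simp [hn]))
      have hfb : e.b.filter (pB K) = e.b := List.filter_eq_self.2 (by
        intro n hn
        have := hy n (by rw [hy1]; simp [hn])
        simpa [pB] using this)
      have e1 : pr (pA K) RA e = [] := by simp [pr, hr]
      have e2 : pr (pB K) RB e = [⟨a1, e.r, e.b, e.fwd⟩] := by
        simp only [pr, hrB, if_true, hfa, hfb]
      set e0 : Edge ℕ := ⟨a1, e.r, e.b, e.fwd⟩ with he0
      have e3 : inB x e0 = e := by
        simp only [inB, he0, ← ha]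
      have s0 : e0.src = y := by simp only [he0, Edge.src, hy1]
      have t0 : e0.tgt = a1 ++ side e.r (!e.fwd) ++ e.b := rfl
      rw [e1, e2]
      simp only [List.cons_append, List.nil_append, List.map_cons]
      have t1 := g4.append_left (w := x ++ y) (A := [e]) ⟨h1, h2, htgt⟩
      refine Htpy.trans _ _ _ t1 ?_
      -- the path in the left factor
      have hPA := Pr_path (sepA hA hB) h3
      rw [filtA hx hhigh, g1, filtA g2 g3] at hPA
      have hPB := Pr_path (sepB hA hB) h3
      rw [filtB hx hhigh, g1, filtB g2 g3] at hPB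
      have t2 := comm_path (R := RU RA RB) (fun r hr => Or.inl hr) hPA e0 (Or.inr hrB)
      rw [e3, s0, t0] at t2
      have t3 := inB_path (R := RU RA RB) (fun r hr => Or.inr hr) x' hPB
      have t4 := (Htpy.symm _ _ t2).append_right t3
      rw [g1]
      simpa using t4

end prod

end Pool.Agent.Y59.RD
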