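import Mathlib
import Pool.Agent.Y59.RD.Prod2

set_option autoImplicit false

/-! The isomorphisms. -/

namespace Pool.Agent.Y59.RD

open Pool.Agent.H476R3.Diag

section prod

variable {K : ℕ} {RA RB : Set (List ℕ × List ℕ)} {x y : List ℕ}

/-- first projection -/
noncomputable def projA (hA : Over (pA K) RA) (hB : Over (pB K) RB) (hx : ∀ n ∈ x, n < K)
    (hy : ∀ n ∈ y, K ≤ n) : DiagramGroup (RU RA RB) (x ++ y) →* DiagramGroup RA x where
  toFun := Quotient.map (fun L : Loop (RU RA RB) (x ++ y) => ⟨Pr (pA K) RA L.1, by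
      have := Pr_path (sepA hA hB) L.2
      rw [filtA hx hy] at this
      exact this⟩)
    (fun _ _ h => by
      have := Pr_htpy (sepA hA hB) h
      rw [filtA hx hy] at this
      exact this)
  map_one' := rfl
  map_mul' := by
    intro a b
    obtain ⟨L, rfl⟩ := DiagramGroup.exists_rep a
    obtain ⟨L', rfl⟩ := DiagramGroup.exists_rep b
    change DiagramGroup.mk ⟨Pr (pA K) RA (L.1 ++ L'.1), _⟩ =
      DiagramGroup.mk ⟨Pr (pA K) RA L.1 ++ Pr (pA K) RA L'.1, _⟩
    congr 2
    exact Pr_append _ _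

/-- second projection -/
noncomputable def projB (hA : Over (pA K) RA) (hB : Over (pB K) RB) (hx : ∀ n ∈ x, n < K)
    (hy : ∀ n ∈ y, K ≤ n) : DiagramGroup (RU RA RB) (x ++ y) →* DiagramGroup RB y where
  toFun := Quotient.map (fun L : Loop (RU RA RB) (x ++ y) => ⟨Pr (pB K) RB L.1, by
      have := Pr_path (sepB hA hB) L.2
      rw [filtB hx hy] at this
      exact this⟩)
    (fun _ _ h => by
      have := Pr_htpy (sepB hA hB) h
      rw [filtB hx hy] at this
      exact this)
  map_one' := rfl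
  map_mul' := by
    intro a b
    obtain ⟨L, rfl⟩ := DiagramGroup.exists_rep a
    obtain ⟨L', rfl⟩ := DiagramGroup.exists_rep b
    change DiagramGroup.mk ⟨Pr (pB K) RB (L.1 ++ L'.1), _⟩ =
      DiagramGroup.mk ⟨Pr (pB K) RB L.1 ++ Pr (pB K) RB L'.1, _⟩
    congr 2
    exact Pr_append _ _

theorem notA {r : List ℕ × List ℕ} (hA : Over (pA K) RA) (hB : Over (pB K) RB) (h : r ∈ RB) :
    r ∉ RA := by
  intro h'
  obtain ⟨n, hn⟩ := List.exists_mem_of_ne_nil _ (hA r h' true).1
  have t1 := (hA r h' true).2 n hn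
  have t2 := (hB r h true).2 n hn
  simp only [pA, pB, decide_eq_true_eq] at t1 t2
  omega

theorem PrA_inA (hA : Over (pA K) RA) (hy : ∀ n ∈ y, K ≤ n) {L : List (Edge ℕ)} :
    ∀ {u v : List ℕ}, (∀ n ∈ u, n < K) → IsPath RA u L v → Pr (pA K) RA (L.map (inA y)) = L := by
  induction L with
  | nil => intro u v _ _; rfl
  | cons e L ih =>
    intro u v hu h
    obtain ⟨h1, h2, h3⟩ := h
    have ht : ∀ n ∈ e.tgt, n < K := by
      intro n hn
      rw [Edge.tgt, List.mem_append, List.mem_append] at hn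
      rcases hn with (hn | hn) | hn
      · exact hu n (by rw [← h2]; simp [Edge.src, hn])
      · simpa [pA] using (hA e.r h1 (!e.fwd)).2 n hn
      · exact hu n (by rw [← h2]; simp [Edge.src, hn])
    rw [List.map_cons, Pr_cons, ih ht h3]
    have hfa : e.a.filter (pA K) = e.a := List.filter_eq_self.2 (by
      intro n hn
      have := hu n (by rw [← h2]; simp [Edge.src, hn])
      simpa [pA] using this)
    have hfb : (e.b ++ y).filter (pA K) = e.b :=
      filtA (fun n hn => hu n (by rw [← h2]; simp [Edge.src, hn])) hy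
    have : pr (pA K) RA (inA y e) = [e] := by
      simp only [pr, inA, h1, if_true, hfa, hfb]
    rw [this]
    rfl

theorem PrB_inB (hB : Over (pB K) RB) (hx : ∀ n ∈ x, n < K) {L : List (Edge ℕ)} :
    ∀ {u v : List ℕ}, (∀ n ∈ u, K ≤ n) → IsPath RB u L v → Pr (pB K) RB (L.map (inB x)) = L := by
  induction L with
  | nil => intro u v _ _; rfl
  | cons e L ih =>
    intro u v hu h
    obtain ⟨h1, h2, h3⟩ := h
    have ht : ∀ n ∈ e.tgt, K ≤ n := by
      intro n hn
      rw [Edge.tgt, List.mem_append, List.mem_append] at hn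
      rcases hn with (hn | hn) | hn
      · exact hu n (by rw [← h2]; simp [Edge.src, hn])
      · simpa [pB] using (hB e.r h1 (!e.fwd)).2 n hn
      · exact hu n (by rw [← h2]; simp [Edge.src, hn])
    rw [List.map_cons, Pr_cons, ih ht h3]
    have hfb : e.b.filter (pB K) = e.b := List.filter_eq_self.2 (by
      intro n hn
      have := hu n (by rw [← h2]; simp [Edge.src, hn])
      simpa [pB] using this)
    have hfa : (x ++ e.a).filter (pB K) = e.a :=
      filtB hx (fun n hn => hu n (by rw [← h2]; simp [Edge.src, hn]))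
    have : pr (pB K) RB (inB x e) = [e] := by
      simp only [pr, inB, h1, if_true, hfa, hfb]
    rw [this]
    rfl

theorem PrA_inB (hA : Over (pA K) RA) (hB : Over (pB K) RB) {L : List (Edge ℕ)} :
    ∀ {u v : List ℕ}, IsPath RB u L v → Pr (pA K) RA (L.map (inB x)) = [] := by
  induction L with
  | nil => intro u v _; rfl
  | cons e L ih =>
    intro u v h
    rw [List.map_cons, Pr_cons, ih h.2.2]
    simp [pr, inB, notA hA hB h.1]

theorem PrB_inA (hA : Over (pA K) RA) (hB : Over (pB K) RB) {L : List (Edge ℕ)} :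
    ∀ {u v : List ℕ}, IsPath RA u L v → Pr (pB K) RB (L.map (inA y)) = [] := by
  induction L with
  | nil => intro u v _; rfl
  | cons e L ih =>
    intro u v h
    rw [List.map_cons, Pr_cons, ih h.2.2]
    have : e.r ∉ RB := fun h' => notA hA hB h' h.1
    simp [pr, inA, this]

/-- **Direct products.** -/
theorem prod_iso (hA : Over (pA K) RA) (hB : Over (pB K) RB) (hx : ∀ n ∈ x, n < K)
    (hy : ∀ n ∈ y, K ≤ n) :
    Nonempty (DiagramGroup (RU RA RB) (x ++ y) ≃* DiagramGroup RA x × DiagramGroup RB y) := by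
  refine ⟨MulEquiv.ofBijective ((projA hA hB hx hy).prod (projB hA hB hx hy)) ⟨?_, ?_⟩⟩
  · intro a b hab
    obtain ⟨L, rfl⟩ := DiagramGroup.exists_rep a
    obtain ⟨L', rfl⟩ := DiagramGroup.exists_rep b
    have h1 : projA hA hB hx hy (DiagramGroup.mk L) = projA hA hB hx hy (DiagramGroup.mk L') :=
      congrArg Prod.fst hab
    have h2 : projB hA hB hx hy (DiagramGroup.mk L) = projB hA hB hx hy (DiagramGroup.mk L') :=
      congrArg Prod.snd hab
    have h3 : Htpy RA x x (Pr (pA K) RA L.1) (Pr (pA K) RA L'.1) := DiagramGroup.mk_eq.1 h1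
    have h4 : Htpy RB y y (Pr (pB K) RB L.1) (Pr (pB K) RB L'.1) := DiagramGroup.mk_eq.1 h2
    have key : ∀ M : Loop (RU RA RB) (x ++ y), Htpy (RU RA RB) (x ++ y) (x ++ y) M.1
        ((Pr (pA K) RA M.1).map (inA y) ++ (Pr (pB K) RB M.1).map (inB x)) := by
      intro M
      obtain ⟨x', y', g1, g2, g3, g4⟩ := claimP hA hB M.1 x y _ hx hy M.2
      have e1 := filtA g2 g3
      rw [← g1, filtA hx hy] at e1
      rw [← e1] at g4
      exact g4
    refine DiagramGroup.mk_eq.2 (Htpy.trans _ _ _ (key L) (Htpy.trans _ _ _ ?_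
      (Htpy.symm _ _ (key L'))))
    exact Htpy.append (inA_htpy (fun r hr => Or.inl hr) y h3)
      (inB_htpy (fun r hr => Or.inr hr) x h4)
  · rintro ⟨a, b⟩
    obtain ⟨L, rfl⟩ := DiagramGroup.exists_rep a
    obtain ⟨L', rfl⟩ := DiagramGroup.exists_rep b
    refine ⟨DiagramGroup.mk ⟨L.1.map (inA y) ++ L'.1.map (inB x),
      (inA_path (fun r hr => Or.inl hr) y L.2).append
        (inB_path (fun r hr => Or.inr hr) x L'.2)⟩, ?_⟩
    refine Prod.ext ?_ ?_
    · change DiagramGroup.mk ⟨Pr (pA K) RA (L.1.map (inA y) ++ L'.1.map (inB x)), _⟩ =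
        DiagramGroup.mk L
      congr 1
      refine Subtype.ext ?_
      change Pr (pA K) RA (L.1.map (inA y) ++ L'.1.map (inB x)) = L.1
      rw [Pr_append, PrA_inA hA hy hx L.2, PrA_inB hA hB L'.2, List.append_nil]
    · change DiagramGroup.mk ⟨Pr (pB K) RB (L.1.map (inA y) ++ L'.1.map (inB x)), _⟩ =
        DiagramGroup.mk L'
      congr 1
      refine Subtype.ext ?_
      change Pr (pB K) RB (L.1.map (inA y) ++ L'.1.map (inB x)) = L'.1
      rw [Pr_append, PrB_inA hA hB L.2, PrB_inB hB hx hy L'.2, List.nil_append]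

end prod

section relabel

variable (f : ℕ → ℕ) {R : Set (List ℕ × List ℕ)}

/-- relabelled relation -/
def rr (r : List ℕ × List ℕ) : List ℕ × List ℕ := (r.1.map f, r.2.map f)

/-- relabelled edge -/
def rl (e : Edge ℕ) : Edge ℕ := ⟨e.a.map f, rr f e.r, e.b.map f, e.fwd⟩

theorem side_rr (r : List ℕ × List ℕ) (b : Bool) : side (rr f r) b = (side r b).map f := by
  cases b <;> rfl

theorem rl_src (e : Edge ℕ) : (rl f e).src = e.src.map f := by
  simp [rl, Edge.src, side_rr]

theorem rl_tgt (e : Edge ℕ) : (rl f e).tgt = e.tgt.map f := by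
  simp [rl, Edge.tgt, side_rr]

theorem rl_path {u v : List ℕ} {L : List (Edge ℕ)} (h : IsPath R u L v) :
    IsPath (rr f '' R) (u.map f) (L.map (rl f)) (v.map f) := by
  induction L generalizing u with
  | nil =>
    have : u = v := h
    subst this
    rfl
  | cons e L ih =>
    obtain ⟨h1, rfl, h3⟩ := h
    exact ⟨⟨e.r, h1, rfl⟩, rl_src f e, by rw [rl_tgt]; exact ih h3⟩

theorem rl_elem {L L' : List (Edge ℕ)} (h : Elem L L') : Elem (L.map (rl f)) (L'.map (rl f)) := by
  cases h with
  | cancel L₁ e L₂ =>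
    simp only [List.map_append, List.map_cons]
    exact Elem.cancel _ _ _
  | square L₁ a r b s c p q L₂ =>
    have := Elem.square (L₁.map (rl f)) (a.map f) (rr f r) (b.map f) (rr f s) (c.map f) p q
      (L₂.map (rl f))
    simp only [List.map_append, List.map_cons, rl, side_rr] at this ⊢
    exact this

theorem rl_htpy {u v : List ℕ} {L L' : List (Edge ℕ)} (h : Htpy R u v L L') :
    Htpy (rr f '' R) (u.map f) (v.map f) (L.map (rl f)) (L'.map (rl f)) := by
  induction h with
  | refl L h => exact Htpy.refl _ (rl_path f h)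
  | elem L L' h h' e => exact Htpy.elem _ _ (rl_path f h) (rl_path f h') (rl_elem f e)
  | symm L L' _ ih => exact Htpy.symm _ _ ih
  | trans L L' L'' _ _ ih ih' => exact Htpy.trans _ _ _ ih ih'

/-- relabelling homomorphism -/
def rlHom (x : List ℕ) : DiagramGroup R x →* DiagramGroup (rr f '' R) (x.map f) where
  toFun := Quotient.map (fun L : Loop R x => ⟨L.1.map (rl f), rl_path f L.2⟩)
    (fun _ _ h => rl_htpy f h)
  map_one' := rfl
  map_mul' := by
    intro a b
    obtain ⟨L, rfl⟩ := DiagramGroup.exists_rep a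
    obtain ⟨L', rfl⟩ := DiagramGroup.exists_rep b
    change DiagramGroup.mk ⟨(L.1 ++ L'.1).map (rl f), _⟩ =
      DiagramGroup.mk ⟨L.1.map (rl f) ++ L'.1.map (rl f), _⟩
    congr 2
    exact List.map_append

variable {f}

theorem rl_lift (hf : Function.Injective f) {Z : List (Edge ℕ)} : ∀ {u z : List ℕ},
    IsPath (rr f '' R) (u.map f) Z z →
      ∃ L v, z = v.map f ∧ Z = L.map (rl f) ∧ IsPath R u L v := by
  induction Z with
  | nil =>
    intro u z h
    exact ⟨[], u, (h : u.map f = z).symm, rfl, rfl⟩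
  | cons e Z ih =>
    intro u z h
    obtain ⟨⟨s, hs, hse⟩, h2, h3⟩ := h
    have h4 : u.map f = e.a ++ side e.r e.fwd ++ e.b := h2.symm
    obtain ⟨u1, b0, g1, g2, g3⟩ := List.map_eq_append_iff.1 h4
    obtain ⟨a0, c0, k1, k2, k3⟩ := List.map_eq_append_iff.1 g2
    rw [← hse, side_rr] at k3
    have k4 : c0 = side s e.fwd := hf.list_map k3
    have he : e = rl f ⟨a0, s, b0, e.fwd⟩ := by
      simp only [rl]
      rw [k2, hse, g3]
    have ht : e.tgt = (Edge.tgt ⟨a0, s, b0, e.fwd⟩).map f := by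
      rw [← rl_tgt, ← he]
    rw [ht] at h3
    obtain ⟨L, v, m1, m2, m3⟩ := ih h3
    refine ⟨⟨a0, s, b0, e.fwd⟩ :: L, v, m1, ?_, hs, ?_, m3⟩
    · rw [List.map_cons, ← he, ← m2]
    · rw [g1, k1, k4]
      rfl

theorem rr_inv {g : ℕ → ℕ} (hgf : ∀ n, g (f n) = n) (r : List ℕ × List ℕ) :
    rr g (rr f r) = r := by
  have : ∀ l : List ℕ, (l.map f).map g = l := by
    intro l
    rw [List.map_map]
    have : g ∘ f = id := funext hgf
    rw [this, List.map_id]
  simp [rr, this]

theorem rl_inv {g : ℕ → ℕ} (hgf : ∀ n, g (f n) = n) (e : Edge ℕ) : rl g (rl f e) = e := by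
  have : ∀ l : List ℕ, (l.map f).map g = l := by
    intro l
    rw [List.map_map]
    have : g ∘ f = id := funext hgf
    rw [this, List.map_id]
  rcases e with ⟨a, r, b, d⟩
  simp only [rl, this, rr_inv hgf]

theorem rl_iso {g : ℕ → ℕ} (hgf : ∀ n, g (f n) = n) (x : List ℕ) :
    Nonempty (DiagramGroup R x ≃* DiagramGroup (rr f '' R) (x.map f)) := by
  have hf : Function.Injective f := Function.LeftInverse.injective (g := g) hgf
  refine ⟨MulEquiv.ofBijective (rlHom f x) ⟨?_, ?_⟩⟩
  · intro a b hab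
    obtain ⟨L, rfl⟩ := DiagramGroup.exists_rep a
    obtain ⟨L', rfl⟩ := DiagramGroup.exists_rep b
    have h1 : Htpy (rr f '' R) (x.map f) (x.map f) (L.1.map (rl f)) (L'.1.map (rl f)) :=
      DiagramGroup.mk_eq.1 hab
    have h2 := rl_htpy g h1
    have e1 : rr g '' (rr f '' R) = R := by
      rw [Set.image_image]
      simp only [rr_inv hgf, Set.image_id']
    have e2 : (x.map f).map g = x := by
      rw [List.map_map]
      have : g ∘ f = id := funext hgf
      rw [this, List.map_id]
    have e3 : ∀ L : List (Edge ℕ), (L.map (rl f)).map (rl g) = L := by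
      intro L
      rw [List.map_map]
      have : rl g ∘ rl f = id := funext (rl_inv hgf)
      rw [this, List.map_id]
    rw [e1, e2, e3, e3] at h2
    exact DiagramGroup.mk_eq.2 h2
  · intro b
    obtain ⟨⟨Z, hZ⟩, rfl⟩ := DiagramGroup.exists_rep b
    obtain ⟨L, v, m1, m2, m3⟩ := rl_lift hf hZ
    have : x = v := hf.list_map m1
    subst this
    subst m2
    exact ⟨DiagramGroup.mk ⟨L, m3⟩, rfl⟩

end relabel

end Pool.Agent.Y59.RD
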