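import Mathlib
import Pool.Agent.Y59.RD.Fin
import Pool.Agent.Y59.RD.Prod3

set_option autoImplicit false

/-! Two machines. -/

namespace Pool.Agent.Y59.RD

open Pool.Agent.H476R3.Diag

/-- proper relations over `{0, ..., k-1}` -/
def RelOK (k : ℕ) (F : List (List ℕ × List ℕ)) : Prop :=
  ∀ r ∈ F, r.1 ≠ [] ∧ r.2 ≠ [] ∧ (∀ x ∈ r.1, x < k) ∧ (∀ x ∈ r.2, x < k)

theorem main2 (k1 : ℕ) (F1 : List (List ℕ × List ℕ)) (w1 : List ℕ) (h1 : RelOK k1 F1)
    (hw1 : ∀ x ∈ w1, x < k1) (k2 : ℕ) (F2 : List (List ℕ × List ℕ)) (w2 : List ℕ)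
    (h2 : RelOK k2 F2) (hw2 : ∀ x ∈ w2, x < k2) :
    ∃ (K : ℕ) (F : List (List ℕ × List ℕ)), RelOK K F ∧ ∀ p q : ℕ → Prop, REPred p → REPred q →
      ∃ W : ℕ → List ℕ, Computable W ∧ (∀ n, W n ≠ [] ∧ ∀ x ∈ W n, x < K) ∧
        ∀ n, ∃ (G H : Type) (_ : Group G) (_ : Group H),
          Nonempty (DiagramGroup {r | r ∈ F} (W n) ≃* G × H) ∧
          (p n → Nonempty (G ≃* DiagramGroup {r | r ∈ F1} w1)) ∧ (¬ p n → Subsingleton G) ∧
          (q n → Nonempty (H ≃* DiagramGroup {r | r ∈ F2} w2)) ∧ (¬ q n → Subsingleton H) := by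
  obtain ⟨K1, G1, W1, a1, a2, a3, a4⟩ := Pool.Agent.H476R3.DiagMach.RD59.main k1 F1 w1 h1 hw1
  obtain ⟨K2, G2, W2, b1, b2, b3, b4⟩ := Pool.Agent.H476R3.DiagMach.RD59.main k2 F2 w2 h2 hw2
  let f : ℕ → ℕ := fun n => n + K1
  let g : ℕ → ℕ := fun n => n - K1
  have hgf : ∀ n, g (f n) = n := fun n => Nat.add_sub_cancel n K1
  have hF : {r | r ∈ G1 ++ G2.map (rr f)} = RU {r | r ∈ G1} (rr f '' {r | r ∈ G2}) := by
    ext r
    simp only [Set.mem_ofPred_eq, List.mem_append, List.mem_map, Set.mem_image]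
  have hA : Over (pA K1) {r | r ∈ G1} := by
    intro r hr d
    obtain ⟨c1, c2, c3, c4⟩ := a2 r hr
    cases d with
    | true => exact ⟨by simpa [side] using c1, by simpa [side, pA] using c3⟩
    | false => exact ⟨by simpa [side] using c2, by simpa [side, pA] using c4⟩
  have hB : Over (pB K1) (rr f '' {r | r ∈ G2}) := by
    rintro _ ⟨r, hr, rfl⟩ d
    obtain ⟨c1, c2, c3, c4⟩ := b2 r hr
    rw [side_rr]
    refine ⟨?_, ?_⟩
    · cases d with
      | true => simpa [side] using c1
      | false => simpa [side] using c2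
    · intro n hn
      obtain ⟨m, -, rfl⟩ := List.mem_map.1 hn
      simp [pB, f]
  refine ⟨K1 + K2, G1 ++ G2.map (rr f), ?_, fun p q hp hq => ?_⟩
  · intro r hr
    rcases List.mem_append.1 hr with hr | hr
    · obtain ⟨c1, c2, c3, c4⟩ := a2 r hr
      exact ⟨c1, c2, fun x hx => lt_of_lt_of_le (c3 x hx) (Nat.le_add_right _ _),
        fun x hx => lt_of_lt_of_le (c4 x hx) (Nat.le_add_right _ _)⟩
    · obtain ⟨s, hs, rfl⟩ := List.mem_map.1 hr
      obtain ⟨c1, c2, c3, c4⟩ := b2 s hs
      refine ⟨by simpa [rr] using c1, by simpa [rr] using c2, ?_, ?_⟩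
      · intro x hx
        obtain ⟨m, hm, rfl⟩ := List.mem_map.1 hx
        have := c3 m hm
        simp only [f]
        omega
      · intro x hx
        obtain ⟨m, hm, rfl⟩ := List.mem_map.1 hx
        have := c4 m hm
        simp only [f]
        omega
  · obtain ⟨u, hu, hpu⟩ := Pool.Agent.Helper599.Source.re_reduce p hp
    obtain ⟨v, hv, hqv⟩ := Pool.Agent.Helper599.Source.re_reduce q hq
    refine ⟨fun n => W1 (u n) ++ (W2 (v n)).map f, ?_, ?_, ?_⟩
    · have h1 : Computable (fun n => W1 (u n)) := a1.comp hu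
      have h2 : Computable (fun n => W2 (v n)) := b1.comp hv
      have h3 : Primrec (fun l : List ℕ => l.map f) :=
        Primrec.list_map Primrec.id
          (Primrec.nat_add.comp Primrec.snd (Primrec.const K1)).to₂
      have h4 : Primrec₂ (fun l l' : List ℕ => l ++ l') := Primrec.list_append
      exact h4.to_comp.comp h1 (h3.to_comp.comp h2)
    · intro n
      refine ⟨?_, ?_⟩
      · intro h0
        exact (a3 (u n)).1 (List.append_eq_nil_iff.1 h0).1
      · intro x hx
        rcases List.mem_append.1 hx with hx | hx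
        · exact lt_of_lt_of_le ((a3 (u n)).2 x hx) (Nat.le_add_right _ _)
        · obtain ⟨m, hm, rfl⟩ := List.mem_map.1 hx
          have := (b3 (v n)).2 m hm
          simp only [f]
          omega
    · intro n
      refine ⟨DiagramGroup {r | r ∈ G1} (W1 (u n)), DiagramGroup {r | r ∈ G2} (W2 (v n)),
        inferInstance, inferInstance, ?_, ?_, ?_, ?_, ?_⟩
      · rw [hF]
        obtain ⟨e1⟩ := prod_iso hA hB (x := W1 (u n)) (y := (W2 (v n)).map f) (a3 _).2 (by
          intro m hm
          obtain ⟨m', -, rfl⟩ := List.mem_map.1 hm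
          simp [f])
        obtain ⟨e2⟩ := rl_iso (R := {r | r ∈ G2}) hgf (W2 (v n))
        exact ⟨e1.trans (MulEquiv.prodCongr (MulEquiv.refl _) e2.symm)⟩
      · intro h
        exact (a4 (u n)).1 ((hpu n).1 h)
      · intro h
        exact (a4 (u n)).2 (fun h' => h ((hpu n).2 h'))
      · intro h
        exact (b4 (v n)).1 ((hqv n).1 h)
      · intro h
        exact (b4 (v n)).2 (fun h' => h ((hqv n).2 h'))

/-- Recursively inseparable recursively enumerable sets. -/
theorem insep : ∃ p q : ℕ → Prop, REPred p ∧ REPred q ∧ (∀ n, p n → ¬ q n) ∧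
    ¬ ∃ f : ℕ → Bool, Computable f ∧ ∀ n, (p n → f n = true) ∧ (q n → f n = false) := by
  classical
  let φ : ℕ →. ℕ := fun n => (Denumerable.ofNat Nat.Partrec.Code n).eval n
  have hφ : Partrec φ := by
    have h := Nat.Partrec.Code.eval_part.comp
      (Computable.ofNat Nat.Partrec.Code) (Computable.id (α := ℕ))
    exact h
  have hre : ∀ v : ℕ, REPred (fun n => v ∈ φ n) := by
    intro v
    have h2 : Partrec (fun z : ℕ × ℕ =>
        (cond (decide (z.2 = v)) (Part.some ()) Part.none : Part Unit)) := by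
      refine Partrec.cond ?_ (Computable.const ()) Partrec.none
      exact (Primrec.eq.decide.comp Primrec.snd (Primrec.const v)).to_comp
    have h1 : Partrec (fun n => (φ n).bind (fun m =>
        (cond (decide (m = v)) (Part.some ()) Part.none : Part Unit))) :=
      Partrec.bind hφ h2.to₂
    refine (Partrec.dom_re h1).of_eq ?_
    intro n
    constructor
    · intro h
      obtain ⟨m, hm⟩ := h
      by_cases hv : (φ n).get m = v
      · exact ⟨m, hv⟩
      · simp [hv] at hm
    · rintro ⟨m, hm⟩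
      refine ⟨m, ?_⟩
      simp [hm]
  refine ⟨fun n => 0 ∈ φ n, fun n => 1 ∈ φ n, hre 0, hre 1, ?_, ?_⟩
  · intro n h0 h1
    have := Part.mem_unique h0 h1
    omega
  · rintro ⟨f, hf, hfpq⟩
    have hg : Computable (fun n => cond (f n) 1 0 : ℕ → ℕ) :=
      Computable.cond hf (Computable.const 1) (Computable.const 0)
    obtain ⟨c, hc⟩ := Nat.Partrec.Code.exists_code.1 (Partrec.nat_iff.1 hg.partrec)
    have h1 : φ (Encodable.encode c) = Part.some (cond (f (Encodable.encode c)) 1 0) := by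
      simp only [φ, Denumerable.ofNat_encode, hc]
      rfl
    have h2 := hfpq (Encodable.encode c)
    cases hb : f (Encodable.encode c) with
    | true =>
      rw [hb] at h1
      have := h2.2 (by show 1 ∈ φ (Encodable.encode c); rw [h1]; simp)
      rw [hb] at this
      cases this
    | false =>
      rw [hb] at h1
      have := h2.1 (by show 0 ∈ φ (Encodable.encode c); rw [h1]; simp)
      rw [hb] at this
      cases this

end Pool.Agent.Y59.RD
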